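import Mathlib

/-!
# Overlap and entropy along a chain of subgroups of a finite abelian group
-/

set_option autoImplicit false

namespace Pool.Agent.XA

open Finset

section Edge

variable {A : Type} [AddCommGroup A] [Fintype A]

open Classical in
/-- mass of the coset `a + U` -/
noncomputable def cm (Q : A → ℝ) (U : AddSubgroup A) (a : A) : ℝ :=
  ∑ u, if u ∈ U then Q (a + u) else 0

theorem cm_nonneg {Q : A → ℝ} (hQ : ∀ a, 0 ≤ Q a) (U : AddSubgroup A) (a : A) :
    0 ≤ cm Q U a := by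
  classical
  unfold cm
  exact Finset.sum_nonneg fun u _ => by split_ifs <;> [exact hQ _; exact le_rfl]

theorem le_cm {Q : A → ℝ} (hQ : ∀ a, 0 ≤ Q a) (U : AddSubgroup A) (a : A) : Q a ≤ cm Q U a := by
  classical
  unfold cm
  have := Finset.single_le_sum (f := fun u => if u ∈ U then Q (a + u) else 0)
    (fun u _ => by
      show (0 : ℝ) ≤ if u ∈ U then Q (a + u) else 0
      split_ifs <;> [exact hQ _; exact le_rfl]) (Finset.mem_univ (0 : A))
  simpa [U.zero_mem] using this

theorem cm_shift (Q : A → ℝ) (U : AddSubgroup A) (a g : A) (hg : g ∈ U) :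
    cm Q U (a + g) = cm Q U a := by
  classical
  unfold cm
  refine Fintype.sum_equiv (Equiv.addLeft g) _ _ ?_
  intro u
  simp only [Equiv.coe_addLeft, add_assoc]
  have : g + u ∈ U ↔ u ∈ U := U.add_mem_cancel_left hg
  by_cases h : u ∈ U
  · rw [if_pos h, if_pos (this.2 h)]
  · rw [if_neg h, if_neg (fun h' => h (this.1 h'))]

/-- two different cosets inside a larger one -/
theorem cm_add_le {Q : A → ℝ} (hQ : ∀ a, 0 ≤ Q a) (U U' : AddSubgroup A) (hU : U ≤ U') (a g : A)
    (hg : g ∉ U) (hg' : g ∈ U') : cm Q U a + cm Q U (a + g) ≤ cm Q U' a := by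
  classical
  have h1 : cm Q U (a + g) = ∑ u, if u - g ∈ U then Q (a + u) else 0 := by
    unfold cm
    refine Fintype.sum_equiv (Equiv.addLeft g) _ _ ?_
    intro u
    simp only [Equiv.coe_addLeft, add_sub_cancel_left, add_assoc]
  rw [h1]
  unfold cm
  rw [← Finset.sum_add_distrib]
  apply Finset.sum_le_sum
  intro u _
  by_cases h2 : u ∈ U
  · have h3 : u - g ∉ U := fun h => hg (by
      have := U.sub_mem h2 h
      simpa using this)
    rw [if_pos h2, if_neg h3, if_pos (hU h2), add_zero]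
  · rw [if_neg h2, zero_add]
    by_cases h3 : u - g ∈ U
    · have h4 : u ∈ U' := by
        have := U'.add_mem (hU h3) hg'
        simpa using this
      rw [if_pos h3, if_pos h4]
    · rw [if_neg h3]
      split_ifs <;> [exact hQ _; exact le_rfl]

/-- entropy relative to the cosets of `U` -/
noncomputable def entU (Q : A → ℝ) (U : AddSubgroup A) : ℝ := -∑ a, Q a * Real.log (cm Q U a)

/-- one step of the chain -/
theorem entU_step {Q : A → ℝ} (hQ : ∀ a, 0 ≤ Q a) (U U' : AddSubgroup A) (hU : U ≤ U') (g : A)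
    (hg : g ∉ U) (hg' : g ∈ U') :
    1 / 2 * ∑ a, min (Q a) (Q (a + g)) ≤ entU Q U - entU Q U' := by
  have h1 : ∀ a, Q a * (1 - cm Q U a / cm Q U' a) ≤
      Q a * (Real.log (cm Q U' a) - Real.log (cm Q U a)) := by
    intro a
    rcases (hQ a).eq_or_lt with h0 | h0
    · rw [← h0, zero_mul, zero_mul]
    · apply mul_le_mul_of_nonneg_left _ h0.le
      have e1 : 0 < cm Q U a := lt_of_lt_of_le h0 (le_cm hQ U a)
      have e2 : 0 < cm Q U' a := lt_of_lt_of_le h0 (le_cm hQ U' a)
      have := Real.log_le_sub_one_of_pos (show 0 < cm Q U a / cm Q U' a by positivity)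
      rw [Real.log_div e1.ne' e2.ne'] at this
      linarith
  have h2 : entU Q U - entU Q U' =
      ∑ a, Q a * (Real.log (cm Q U' a) - Real.log (cm Q U a)) := by
    unfold entU
    rw [neg_sub_neg, ← Finset.sum_sub_distrib]
    apply Finset.sum_congr rfl
    intro a _
    ring
  have hsh : ∑ a, Q (a + g) * (1 - cm Q U (a + g) / cm Q U' a) =
      ∑ a, Q a * (1 - cm Q U a / cm Q U' a) := by
    have e1 : ∀ a, Q (a + g) * (1 - cm Q U (a + g) / cm Q U' a) =
        Q (a + g) * (1 - cm Q U (a + g) / cm Q U' (a + g)) := by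
      intro a
      rw [cm_shift Q U' a g hg']
    rw [Finset.sum_congr rfl (fun a _ => e1 a)]
    exact Fintype.sum_equiv (Equiv.addRight g) _ _ (fun _ => rfl)
  have h3 : ∀ a, min (Q a) (Q (a + g)) ≤ Q a * (1 - cm Q U a / cm Q U' a) +
      Q (a + g) * (1 - cm Q U (a + g) / cm Q U' a) := by
    intro a
    have hx := cm_nonneg hQ U a
    have hy := cm_nonneg hQ U (a + g)
    have hm := cm_add_le hQ U U' hU a g hg hg'
    rcases (cm_nonneg hQ U' a).eq_or_lt with h0 | h0
    · have e1 : Q a = 0 := le_antisymm (by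
        have := le_cm hQ U' a
        rw [← h0] at this
        exact this) (hQ a)
      have e2 : Q (a + g) = 0 := le_antisymm (by
        have := le_cm hQ U' (a + g)
        rw [cm_shift Q U' a g hg', ← h0] at this
        exact this) (hQ _)
      rw [e1, e2]
      simp
    · have e1 : cm Q U a / cm Q U' a ≤ 1 := (div_le_one h0).2 (by linarith)
      have e2 : cm Q U (a + g) / cm Q U' a ≤ 1 := (div_le_one h0).2 (by linarith)
      have e3 : cm Q U a / cm Q U' a + cm Q U (a + g) / cm Q U' a ≤ 1 := by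
        rw [← add_div]
        exact (div_le_one h0).2 hm
      have e4 : min (Q a) (Q (a + g)) * (1 - cm Q U a / cm Q U' a) ≤
          Q a * (1 - cm Q U a / cm Q U' a) :=
        mul_le_mul_of_nonneg_right (min_le_left _ _) (by linarith)
      have e5 : min (Q a) (Q (a + g)) * (1 - cm Q U (a + g) / cm Q U' a) ≤
          Q (a + g) * (1 - cm Q U (a + g) / cm Q U' a) :=
        mul_le_mul_of_nonneg_right (min_le_right _ _) (by linarith)
      have e6 : 0 ≤ min (Q a) (Q (a + g)) := le_min (hQ a) (hQ _)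
      nlinarith
  have h4 : ∑ a, min (Q a) (Q (a + g)) ≤ 2 * ∑ a, Q a * (1 - cm Q U a / cm Q U' a) := by
    calc ∑ a, min (Q a) (Q (a + g)) ≤ ∑ a, (Q a * (1 - cm Q U a / cm Q U' a) +
          Q (a + g) * (1 - cm Q U (a + g) / cm Q U' a)) := Finset.sum_le_sum fun a _ => h3 a
      _ = _ := by rw [Finset.sum_add_distrib, hsh]; ring
  have h5 : ∑ a, Q a * (1 - cm Q U a / cm Q U' a) ≤ entU Q U - entU Q U' := by
    rw [h2]
    exact Finset.sum_le_sum fun a _ => h1 a
  linarith

theorem entU_bot (Q : A → ℝ) : entU Q ⊥ = ∑ a, Real.negMulLog (Q a) := by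
  classical
  have h : ∀ a, cm Q ⊥ a = Q a := by
    intro a
    unfold cm
    rw [Finset.sum_eq_single 0]
    · simp
    · intro b _ hb
      rw [if_neg]
      simpa using hb
    · intro h; exact absurd (Finset.mem_univ _) h
  unfold entU
  rw [← Finset.sum_neg_distrib]
  apply Finset.sum_congr rfl
  intro a _
  rw [h]
  unfold Real.negMulLog
  ring

theorem entU_nonneg {Q : A → ℝ} (hQ : ∀ a, 0 ≤ Q a) (hQ1 : ∑ a, Q a = 1) (U : AddSubgroup A) :
    0 ≤ entU Q U := by
  classical
  unfold entU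
  rw [← Finset.sum_neg_distrib]
  apply Finset.sum_nonneg
  intro a _
  rw [neg_nonneg]
  apply mul_nonpos_of_nonneg_of_nonpos (hQ a)
  apply Real.log_nonpos (cm_nonneg hQ U a)
  unfold cm
  calc ∑ u, (if u ∈ U then Q (a + u) else 0) ≤ ∑ u, Q (a + u) := by
        apply Finset.sum_le_sum
        intro u _
        split_ifs <;> [exact le_rfl; exact hQ _]
    _ = ∑ u, Q u := Fintype.sum_equiv (Equiv.addLeft a) _ _ (fun _ => rfl)
    _ = 1 := hQ1

/-- the subgroup generated by the first elements of a sequence -/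
def chn {D : ℕ} (g : Fin D → A) (k : ℕ) : AddSubgroup A :=
  AddSubgroup.closure {x | ∃ i : Fin D, (i : ℕ) < k ∧ x = g i}

/-- along a chain `g_i ∉ ⟨g_1, …, g_{i-1}⟩` the overlaps add up to at most twice the entropy -/
theorem chain_overlap {Q : A → ℝ} (hQ : ∀ a, 0 ≤ Q a) (hQ1 : ∑ a, Q a = 1) {D : ℕ}
    (g : Fin D → A) (hg : ∀ i : Fin D, g i ∉ chn g i) :
    ∑ i, ∑ a, min (Q a) (Q (a + g i)) ≤ 2 * ∑ a, Real.negMulLog (Q a) := by
  have hstep : ∀ i : Fin D, 1 / 2 * ∑ a, min (Q a) (Q (a + g i)) ≤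
      entU Q (chn g i) - entU Q (chn g (i + 1)) := by
    intro i
    apply entU_step hQ _ _ _ (g i) (hg i)
    · exact AddSubgroup.subset_closure ⟨i, by omega, rfl⟩
    · apply AddSubgroup.closure_mono
      rintro x ⟨j, hj, rfl⟩
      exact ⟨j, by omega, rfl⟩
  have hsum : ∑ i : Fin D, (entU Q (chn g i) - entU Q (chn g (i + 1))) =
      entU Q (chn g 0) - entU Q (chn g D) := by
    rw [Fin.sum_univ_eq_sum_range (fun i => entU Q (chn g i) - entU Q (chn g (i + 1))) D,
      Finset.sum_range_sub']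
  have h0 : chn g 0 = ⊥ := by
    unfold chn
    rw [AddSubgroup.closure_eq_bot_iff]
    rintro x ⟨i, hi, -⟩
    exact absurd hi (Nat.not_lt_zero _)
  have h1 := Finset.sum_le_sum (fun i (_ : i ∈ Finset.univ) => hstep i)
  rw [hsum, h0, entU_bot, ← Finset.mul_sum] at h1
  have h2 := entU_nonneg hQ hQ1 (chn g D)
  linarith

/-- size of the subgroup generated by a chain -/
theorem card_chn {D : ℕ} (g : Fin D → A) {N : ℕ} (hN : ∀ i, addOrderOf (g i) ≤ N) (k : ℕ)
    (hk : k ≤ D) : Nat.card (chn g k) ≤ N ^ k := by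
  induction k with
  | zero =>
    have h0 : chn g 0 = ⊥ := by
      unfold chn
      rw [AddSubgroup.closure_eq_bot_iff]
      rintro x ⟨i, hi, -⟩
      exact absurd hi (Nat.not_lt_zero _)
    rw [h0, pow_zero]
    simp
  | succ k ih =>
    have hk' : k < D := by omega
    have h1 : chn g (k + 1) ≤ chn g k ⊔ AddSubgroup.zmultiples (g ⟨k, hk'⟩) := by
      unfold chn
      rw [AddSubgroup.closure_le]
      rintro x ⟨i, hi, rfl⟩
      rcases Nat.lt_succ_iff_lt_or_eq.1 hi with h | h
      · exact (le_sup_left : AddSubgroup.closure _ ≤ _)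
          (AddSubgroup.subset_closure ⟨i, h, rfl⟩)
      · have : i = ⟨k, hk'⟩ := Fin.ext h
        rw [this]
        exact (le_sup_right : AddSubgroup.zmultiples _ ≤ _)
          (AddSubgroup.mem_zmultiples _)
    have h2 : Nat.card (chn g (k + 1)) ≤
        Nat.card ((chn g k ⊔ AddSubgroup.zmultiples (g ⟨k, hk'⟩) : AddSubgroup A)) :=
      AddSubgroup.card_le_of_le h1
    have h3 : Nat.card ((chn g k ⊔ AddSubgroup.zmultiples (g ⟨k, hk'⟩) : AddSubgroup A)) ≤
        Nat.card (chn g k) * Nat.card (AddSubgroup.zmultiples (g ⟨k, hk'⟩)) := by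
      rw [← Nat.card_prod]
      refine Nat.card_le_card_of_surjective
        (fun x : (chn g k) × (AddSubgroup.zmultiples (g ⟨k, hk'⟩)) =>
          (⟨x.1 + x.2, AddSubgroup.add_mem_sup x.1.2 x.2.2⟩ :
            (chn g k ⊔ AddSubgroup.zmultiples (g ⟨k, hk'⟩) : AddSubgroup A))) ?_
      rintro ⟨y, hy⟩
      obtain ⟨a, ha, b, hb, rfl⟩ := AddSubgroup.mem_sup.1 hy
      exact ⟨(⟨a, ha⟩, ⟨b, hb⟩), rfl⟩
    have h4 : Nat.card (AddSubgroup.zmultiples (g ⟨k, hk'⟩)) ≤ N := by
      rw [Nat.card_zmultiples]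
      exact hN _
    calc Nat.card (chn g (k + 1)) ≤ _ := h2.trans h3
      _ ≤ N ^ k * N := Nat.mul_le_mul (ih (by omega)) h4
      _ = N ^ (k + 1) := (pow_succ N k).symm

end Edge

end Pool.Agent.XA
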