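import Mathlib
import Pool.Agent.Lib_helper38.XA.Defs

/-! XA, block K2a: restrictions -/

set_option autoImplicit false

namespace Pool.Agent.XA

open Finset Filter Pool.Agent.XO

variable {V : Type} [AddCommGroup V] [Fintype V] [DecidableEq V]
variable {W : Type} [AddCommGroup W] [Fintype W] [DecidableEq W]

theorem push_bf {F : V → ℂ} (hF : BF F) (π : V →+ W) (ξ : AddChar V ℂ) : BF (push π F ξ) := by
  constructor
  · intro g
    unfold push
    -- the convolution
    have h1 : ∑ q : W, (∑ c, if π c = q then F c * ξ c else 0) *
        (∑ c, if π c = g - q then F c * ξ c else 0) =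
        ∑ h : V, if π h = g then (∑ c, F c * F (h - c)) * ξ h else 0 := by
      calc ∑ q : W, (∑ c, if π c = q then F c * ξ c else 0) *
            (∑ c, if π c = g - q then F c * ξ c else 0)
          = ∑ q : W, ∑ c, ∑ d, if π c = q then (if π d = g - q then F c * ξ c * (F d * ξ d) else 0)
              else 0 := by
            apply Finset.sum_congr rfl
            intro q _
            rw [Finset.sum_mul_sum]
            apply Finset.sum_congr rfl
            intro c _
            apply Finset.sum_congr rfl
            intro d _
            by_cases h1 : π c = q <;> by_cases h2 : π d = g - q <;> simp [h1, h2]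
        _ = ∑ c, ∑ d, ∑ q : W, if π c = q then (if π d = g - q then F c * ξ c * (F d * ξ d) else 0)
              else 0 := by
            rw [Finset.sum_comm]
            apply Finset.sum_congr rfl
            intro c _
            rw [Finset.sum_comm]
        _ = ∑ c, ∑ d, if π d = g - π c then F c * ξ c * (F d * ξ d) else 0 := by
            apply Finset.sum_congr rfl
            intro c _
            apply Finset.sum_congr rfl
            intro d _
            rw [Finset.sum_ite_eq, if_pos (Finset.mem_univ _)]
        _ = ∑ c, ∑ h, if π h = g then F c * F (h - c) * ξ h else 0 := by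
            apply Finset.sum_congr rfl
            intro c _
            refine (Fintype.sum_equiv (Equiv.subRight c) _ _ ?_).symm
            intro h
            simp only [Equiv.subRight_apply]
            have e1 : ξ h = ξ c * ξ (h - c) := by
              rw [← AddChar.map_add_eq_mul, add_sub_cancel]
            have e2 : (π (h - c) = g - π c) ↔ π h = g := by
              rw [map_sub, sub_left_inj]
            by_cases h3 : π h = g
            · rw [if_pos h3, if_pos (e2.2 h3), e1]
              ring
            · rw [if_neg h3, if_neg (fun h4 => h3 (e2.1 h4))]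
        _ = ∑ h : V, if π h = g then (∑ c, F c * F (h - c)) * ξ h else 0 := by
            rw [Finset.sum_comm]
            apply Finset.sum_congr rfl
            intro h _
            split_ifs
            · rw [Finset.sum_mul]
            · rw [Finset.sum_const_zero]
    rw [h1]
    have h2 : ∀ h : V, (if π h = g then (∑ c, F c * F (h - c)) * ξ h else 0) =
        if h = 0 then (if π h = g then (1 : ℂ) else 0) else 0 := by
      intro h
      rw [hF.conv h]
      by_cases h3 : h = 0
      · subst h3
        simp
      · simp [h3]
    rw [Finset.sum_congr rfl (fun h _ => h2 h), Finset.sum_ite_eq', if_pos (Finset.mem_univ _),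
      map_zero]
    by_cases h3 : g = 0
    · rw [if_pos h3, if_pos h3.symm]
    · rw [if_neg h3, if_neg (fun h => h3 h.symm)]
  · intro q
    unfold push
    rw [map_sum]
    refine Fintype.sum_equiv (Equiv.neg V) _ _ ?_
    intro c
    simp only [Equiv.neg_apply]
    by_cases h : π c = -q
    · rw [if_pos h, if_pos (by rw [map_neg, h, neg_neg]), map_mul, hF.conj,
        AddChar.map_neg_eq_conj, Complex.conj_conj, Complex.conj_conj]
    · rw [if_neg h, if_neg (fun h' => h (by rw [← h', map_neg, neg_neg])), map_zero]

theorem ev_push (F : V → ℂ) (π : V →+ W) (ξ : AddChar V ℂ) (ζ : AddChar W ℂ) :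
    ev (push π F ξ) ζ = ev F (ξ * ζ.compAddMonoidHom π) := by
  unfold ev push
  calc ∑ q, (∑ c, if π c = q then F c * ξ c else 0) * ζ q
      = ∑ q, ∑ c, if π c = q then F c * ξ c * ζ q else 0 := by
        apply Finset.sum_congr rfl
        intro q _
        rw [Finset.sum_mul]
        apply Finset.sum_congr rfl
        intro c _
        split_ifs
        · rfl
        · rw [zero_mul]
    _ = ∑ c, ∑ q, if π c = q then F c * ξ c * ζ q else 0 := Finset.sum_comm
    _ = _ := by
        apply Finset.sum_congr rfl
        intro c _
        rw [Finset.sum_ite_eq, if_pos (Finset.mem_univ _), AddChar.mul_apply,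
          AddChar.compAddMonoidHom_apply, mul_assoc]

theorem push_push {W' : Type} [AddCommGroup W'] [Fintype W'] [DecidableEq W'] (F : V → ℂ)
    (π : V →+ W) (π' : W →+ W') (ξ : AddChar V ℂ) (ζ : AddChar W ℂ) :
    push π' (push π F ξ) ζ = push (π'.comp π) F (ξ * ζ.compAddMonoidHom π) := by
  ext r
  unfold push
  calc ∑ q, (if π' q = r then (∑ c, if π c = q then F c * ξ c else 0) * ζ q else 0)
      = ∑ q, ∑ c, if π c = q then (if π' q = r then F c * ξ c * ζ q else 0) else 0 := by
        apply Finset.sum_congr rfl
        intro q _
        by_cases h : π' q = r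
        · rw [if_pos h, Finset.sum_mul]
          apply Finset.sum_congr rfl
          intro c _
          rw [if_pos h]
          split_ifs
          · rfl
          · rw [zero_mul]
        · rw [if_neg h]
          symm
          apply Finset.sum_eq_zero
          intro c _
          rw [if_neg h]
          split_ifs <;> rfl
    _ = ∑ c, ∑ q, if π c = q then (if π' q = r then F c * ξ c * ζ q else 0) else 0 :=
        Finset.sum_comm
    _ = _ := by
        apply Finset.sum_congr rfl
        intro c _
        rw [Finset.sum_ite_eq, if_pos (Finset.mem_univ _), AddChar.mul_apply,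
          AddChar.compAddMonoidHom_apply, AddMonoidHom.comp_apply]
        split_ifs
        · ring
        · rfl

theorem push_ne {F : V → ℂ} {π : V →+ W} {ξ : AddChar V ℂ} {q : W} (h : push π F ξ q ≠ 0) :
    ∃ c, F c ≠ 0 ∧ π c = q := by
  by_contra hcon
  push Not at hcon
  apply h
  unfold push
  apply Finset.sum_eq_zero
  intro c _
  by_cases h1 : F c = 0
  · rw [h1, zero_mul, ite_self]
  · rw [if_neg (hcon c h1)]

theorem push_card (F : V → ℂ) (π : V →+ W) (ξ : AddChar V ℂ) :
    (spt (push π F ξ)).card ≤ (spt F).card := by
  classical
  have h1 : spt (push π F ξ) ⊆ (spt F).image π := by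
    intro q hq
    unfold spt at hq
    rw [Finset.mem_filter] at hq
    obtain ⟨c, hc, rfl⟩ := push_ne hq.2
    apply Finset.mem_image_of_mem
    unfold spt
    rw [Finset.mem_filter]
    exact ⟨Finset.mem_univ _, hc⟩
  exact (Finset.card_le_card h1).trans Finset.card_image_le

theorem push_ord {F : V → ℂ} {π : V →+ W} {ξ : AddChar V ℂ} {B : ℕ}
    (hB : ∀ c, F c ≠ 0 → addOrderOf c ≤ B) (q : W) (h : push π F ξ q ≠ 0) : addOrderOf q ≤ B := by
  obtain ⟨c, hc, rfl⟩ := push_ne h
  exact (Nat.le_of_dvd (addOrderOf_pos _) (addOrderOf_map_dvd π c)).trans (hB c hc)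

end Pool.Agent.XA
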