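import Mathlib
import Pool.Agent.Lib_helper10.LogRank.Defs
import Pool.Agent.Lib_helper10.LogRank.Proto
import Pool.Agent.Lib_helper38.XA.Defs
import Pool.Agent.Lib_helper58.XA.Edge
import Pool.Agent.Lib_helper58.XA.K2a
import Pool.Agent.Lib_helper16.XA.K2c

/-! XA, block E1: the evaluation game -/

set_option autoImplicit false

namespace Pool.Agent.XA

open Finset Filter Pool.Agent.XO Pool.Agent.Lib_helper10.LogRank

/-! ### protocols -/

/-- pull back a protocol -/
def e1_comap {X Y X' Y' : Type} (α : X → X') (β : Y → Y') : Protocol X' Y' → Protocol X Y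
  | Protocol.leaf b => Protocol.leaf b
  | Protocol.alice s t₀ t₁ => Protocol.alice (fun x => s (α x)) (e1_comap α β t₀) (e1_comap α β t₁)
  | Protocol.bob s t₀ t₁ => Protocol.bob (fun y => s (β y)) (e1_comap α β t₀) (e1_comap α β t₁)

theorem e1_comap_cost {X Y X' Y' : Type} (α : X → X') (β : Y → Y') (π : Protocol X' Y') :
    (e1_comap α β π).cost = π.cost := by
  induction π with
  | leaf b => rfl
  | alice s t₀ t₁ h₀ h₁ => simp [e1_comap, Protocol.cost, h₀, h₁]
  | bob s t₀ t₁ h₀ h₁ => simp [e1_comap, Protocol.cost, h₀, h₁]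

theorem e1_comap_eval {X Y X' Y' : Type} (α : X → X') (β : Y → Y') (π : Protocol X' Y') (x : X)
    (y : Y) : (e1_comap α β π).eval x y = π.eval (α x) (β y) := by
  induction π with
  | leaf b => rfl
  | alice s t₀ t₁ h₀ h₁ => simp [e1_comap, Protocol.eval, h₀, h₁]
  | bob s t₀ t₁ h₀ h₁ => simp [e1_comap, Protocol.eval, h₀, h₁]

/-- a protocol on a rectangle -/
theorem e1_rect {X Y : Type} (P : X → Prop) (Q : Y → Prop) (f : X → Y → Bool) (c : ℕ)
    (h : (∃ x, P x) → (∃ y, Q y) → ∃ π : Protocol {x // P x} {y // Q y},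
      (∀ x y, π.eval x y = f x.1 y.1) ∧ π.cost ≤ c) :
    CCOn (fun x y => P x ∧ Q y) f c := by
  classical
  by_cases hX : ∃ x, P x
  · by_cases hY : ∃ y, Q y
    · obtain ⟨π, h1, h2⟩ := h hX hY
      obtain ⟨x0, hx0⟩ := hX
      obtain ⟨y0, hy0⟩ := hY
      refine ⟨e1_comap (fun x => if hx : P x then (⟨x, hx⟩ : {x // P x}) else ⟨x0, hx0⟩)
        (fun y => if hy : Q y then (⟨y, hy⟩ : {y // Q y}) else ⟨y0, hy0⟩) π, ?_, ?_⟩
      · rw [e1_comap_cost]
        exact h2
      · rintro x y ⟨hx, hy⟩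
        rw [e1_comap_eval, dif_pos hx, dif_pos hy, h1]
    · exact ⟨Protocol.leaf true, Nat.zero_le _, fun x y hxy => absurd ⟨y, hxy.2⟩ hY⟩
  · exact ⟨Protocol.leaf true, Nat.zero_le _, fun x y hxy => absurd ⟨x, hxy.1⟩ hX⟩

/-! ### counting -/

theorem e1_count {V : Type} [Fintype V] [DecidableEq V] (N : Finset V) (D : ℕ) :
    Fintype.card {T : Finset V // T ⊆ N ∧ T.card ≤ D} ≤ (N.card + 1) ^ D := by
  classical
  have h1 : Fintype.card (Fin D → Option N) = (N.card + 1) ^ D := by
    rw [Fintype.card_fun, Fintype.card_option, Fintype.card_coe, Fintype.card_fin]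
  rw [← h1]
  let f : (Fin D → Option N) → {T : Finset V // T ⊆ N ∧ T.card ≤ D} := fun t =>
    ⟨((univ.image t).eraseNone).map (Function.Embedding.subtype _), by
      intro g hg
      rw [Finset.mem_map] at hg
      obtain ⟨a, -, rfl⟩ := hg
      exact a.2, by
      rw [Finset.card_map]
      calc ((univ.image t).eraseNone).card ≤ (univ.image t).card := Finset.card_eraseNone_le _
        _ ≤ (univ : Finset (Fin D)).card := Finset.card_image_le
        _ = D := by rw [Finset.card_univ, Fintype.card_fin]⟩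
  apply Fintype.card_le_of_surjective f
  rintro ⟨T, hTN, hTD⟩
  refine ⟨fun i => if h : (i : ℕ) < T.card then
    some ⟨(T.equivFin.symm ⟨i, h⟩ : T).1, hTN (T.equivFin.symm ⟨i, h⟩ : T).2⟩ else none, ?_⟩
  apply Subtype.ext
  ext g
  simp only [f, Finset.mem_map, Finset.mem_eraseNone, Finset.mem_image, Finset.mem_univ, true_and,
    Function.Embedding.subtype_apply]
  constructor
  · rintro ⟨a, ⟨i, hi⟩, rfl⟩
    by_cases h : (i : ℕ) < T.card
    · rw [dif_pos h] at hi
      have h2 := Option.some.inj hi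
      rw [← h2]
      exact (T.equivFin.symm ⟨i, h⟩ : T).2
    · rw [dif_neg h] at hi
      exact absurd hi (by simp)
  · intro hg
    refine ⟨⟨g, hTN hg⟩, ⟨⟨(T.equivFin ⟨g, hg⟩ : Fin T.card), lt_of_lt_of_le
      (T.equivFin ⟨g, hg⟩ : Fin T.card).2 hTD⟩, ?_⟩, rfl⟩
    rw [dif_pos (T.equivFin ⟨g, hg⟩ : Fin T.card).2]
    congr 1
    apply Subtype.ext
    simp

theorem e1_closure {V : Type} [AddCommGroup V] [Fintype V] (T : Finset V) {B : ℕ}
    (hB : ∀ g ∈ T, addOrderOf g ≤ B) :
    Nat.card (AddSubgroup.closure (T : Set V)) ≤ B ^ T.card := by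
  have h1 := card_chn (fun i : Fin T.card => (T.equivFin.symm i : V))
    (fun i => hB _ (T.equivFin.symm i).2) T.card le_rfl
  have h2 : chn (fun i : Fin T.card => (T.equivFin.symm i : V)) T.card =
      AddSubgroup.closure (T : Set V) := by
    unfold chn
    congr 1
    ext x
    constructor
    · rintro ⟨i, -, rfl⟩
      exact (T.equivFin.symm i).2
    · intro hx
      exact ⟨T.equivFin ⟨x, hx⟩, (T.equivFin ⟨x, hx⟩).2, by simp⟩
  rwa [h2] at h1

/-! ### characters -/

/-- a character which is trivial on `U` is a character of the quotient -/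
theorem e1_desc {V : Type} [AddCommGroup V] (U : AddSubgroup V) (χ : AddChar V ℂ)
    (h : ∀ u ∈ U, χ u = 1) :
    ∃ ζ : AddChar (V ⧸ U) ℂ, χ = ζ.compAddMonoidHom (QuotientAddGroup.mk' U) := by
  have hker : U ≤ (AddChar.toAddMonoidHom χ).ker := by
    intro u hu
    rw [AddMonoidHom.mem_ker]
    show Additive.ofMul (χ u) = 0
    rw [h u hu]
    rfl
  refine ⟨(AddChar.toAddMonoidHomEquiv (A := V ⧸ U) (M := ℂ)).symm
    (QuotientAddGroup.lift U (AddChar.toAddMonoidHom χ) hker), ?_⟩
  ext v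
  rfl

/-- elements of the form needed -/
theorem e1_sub {V : Type} [AddCommGroup V] [Fintype V] [DecidableEq V] {F : V → ℂ} {S T : Finset V}
    (hS : ∀ c, F c ≠ 0 → c ∈ S) (hd : Dif F T) : T ⊆ S ∪ (S ×ˢ S).image (fun x => x.1 - x.2) := by
  intro g hg
  rw [Finset.mem_union]
  rcases hd g hg with h | ⟨c, c', hc, hc', rfl⟩
  · exact Or.inl (hS g h)
  · right
    rw [Finset.mem_image]
    exact ⟨(c, c'), Finset.mem_product.2 ⟨hS c hc, hS c' hc'⟩, rfl⟩

theorem e1_ncard {V : Type} [AddCommGroup V] [DecidableEq V] {S : Finset V} {r : ℕ} (hr : 2 ≤ r)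
    (hS : S.card ≤ r) : (S ∪ (S ×ˢ S).image (fun x => x.1 - x.2)).card + 1 ≤ r ^ 3 + 1 := by
  have h1 : (S ∪ (S ×ˢ S).image (fun x => x.1 - x.2)).card ≤ S.card + S.card * S.card := by
    refine (Finset.card_union_le _ _).trans (Nat.add_le_add_left ?_ _)
    exact Finset.card_image_le.trans (le_of_eq (Finset.card_product S S))
  have h2 : S.card + S.card * S.card ≤ r + r * r := Nat.add_le_add hS (Nat.mul_le_mul hS hS)
  have h3 : r + r * r ≤ r ^ 3 := by nlinarith [Nat.mul_le_mul hr hr, Nat.mul_le_mul_left r hr]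
  omega

/-- orders -/
theorem e1_ord {V : Type} [AddCommGroup V] [Fintype V] [DecidableEq V] {S : Finset V} {r : ℕ}
    (hr : 2 ≤ r) (hS : ∀ c ∈ S, addOrderOf c ≤ r ^ 3) {g : V}
    (hg : g ∈ S ∪ (S ×ˢ S).image (fun x => x.1 - x.2)) : addOrderOf g ≤ r ^ 6 := by
  have hr1 : 1 ≤ r := by omega
  rw [Finset.mem_union] at hg
  rcases hg with hg | hg
  · exact (hS g hg).trans (Nat.pow_le_pow_right hr1 (by norm_num))
  · rw [Finset.mem_image] at hg
    obtain ⟨⟨c, c'⟩, hcc, rfl⟩ := hg
    obtain ⟨hc, hc'⟩ := Finset.mem_product.1 hcc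
    have h4 := (AddCommute.all c (-c')).addOrderOf_add_dvd_mul_addOrderOf
    rw [addOrderOf_neg, ← sub_eq_add_neg] at h4
    have h5 := Nat.le_of_dvd (Nat.mul_pos (addOrderOf_pos _) (addOrderOf_pos _)) h4
    calc addOrderOf (c - c') ≤ addOrderOf c * addOrderOf c' := h5
      _ ≤ r ^ 3 * r ^ 3 := Nat.mul_le_mul (hS c hc) (hS c' hc')
      _ = r ^ 6 := by ring

/-- `m` rounds -/
theorem game_rec {r D : ℕ} (hr : 2 ≤ r)
    (hk : ∀ (V : Type) [AddCommGroup V] [Fintype V] [DecidableEq V] (F : V → ℂ), BF F →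
      (spt F).card ≤ r → (∀ c, F c ≠ 0 → addOrderOf c ≤ r ^ 3) →
      ∃ T : Finset V, T.card ≤ D ∧ Dif F T ∧ Kills F T) (m : ℕ) :
    ∀ (V : Type) [AddCommGroup V] [Fintype V] [DecidableEq V] (S : Finset V), S.card ≤ r →
      (∀ c ∈ S, addOrderOf c ≤ r ^ 3) → ∀ (X Y : Type) (ξ : X → AddChar V ℂ) (F : Y → V → ℂ),
      (∀ y, BF (F y)) → (∀ y c, F y c ≠ 0 → c ∈ S) →
      (∀ y, ((spt (F y)).erase 0).card < 2 ^ m) →
      ∃ π : Protocol X Y, (∀ x y, π.eval x y = decide (ev (F y) (ξ x) = -1)) ∧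
        π.cost ≤ m * (D * (12 * (Nat.clog 2 r + 1))) + 1 := by
  classical
  induction m with
  | zero =>
    intro V _ _ _ S _ _ X Y ξ F _ _ hc
    refine ⟨Protocol.bob (fun y => decide (F y 0 = -1)) (Protocol.leaf false)
      (Protocol.leaf true), ?_, ?_⟩
    · intro x y
      have h0 : ((spt (F y)).erase 0) = ∅ := by
        have := hc y
        rw [pow_zero, Nat.lt_one_iff, Finset.card_eq_zero] at this
        exact this
      have h1 : ev (F y) (ξ x) = F y 0 := by
        unfold ev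
        rw [Finset.sum_eq_single 0]
        · rw [AddChar.map_zero_eq_one, mul_one]
        · intro c _ hc0
          have : c ∉ (spt (F y)).erase 0 := by rw [h0]; exact Finset.notMem_empty _
          rw [Finset.mem_erase, k2c_mem] at this
          push Not at this
          rw [this hc0, zero_mul]
        · intro h
          exact absurd (Finset.mem_univ _) h
      rw [h1]
      by_cases h2 : F y 0 = -1
      · simp [Protocol.eval, h2]
      · simp [Protocol.eval, h2]
    · simp [Protocol.cost]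
  | succ m ih =>
    intro V _ _ _ S hS hSo X Y ξ F hF hFS hc
    have hT : ∀ y, ∃ T : Finset V, T.card ≤ D ∧ Dif (F y) T ∧ Kills (F y) T := by
      intro y
      apply hk V (F y) (hF y)
      · refine le_trans (Finset.card_le_card ?_) hS
        intro c hcc
        exact hFS y c (k2c_mem.1 hcc)
      · intro c hcc
        exact hSo c (hFS y c hcc)
    choose T hT1 hT2 hT3 using hT
    set N : Finset V := S ∪ (S ×ˢ S).image (fun x => x.1 - x.2) with hN
    set L := Nat.clog 2 r with hL
    have hrL : r ≤ 2 ^ L := Nat.le_pow_clog (by norm_num) r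
    let lb : Y → {T : Finset V // T ⊆ N ∧ T.card ≤ D} := fun y =>
      ⟨T y, e1_sub (hFS y) (hT2 y), hT1 y⟩
    have hlb : Fintype.card {T : Finset V // T ⊆ N ∧ T.card ≤ D} ≤ 2 ^ ((3 * L + 1) * D) := by
      refine (e1_count N D).trans ?_
      rw [pow_mul]
      apply Nat.pow_le_pow_left
      have h1 : N.card + 1 ≤ r ^ 3 + 1 := e1_ncard hr hS
      have h2 : r ^ 3 ≤ (2 ^ L) ^ 3 := Nat.pow_le_pow_left hrL 3
      have h3 : (2 ^ L) ^ 3 = 2 ^ (3 * L) := by rw [← pow_mul, mul_comm]
      have h4 : 1 ≤ 2 ^ (3 * L) := Nat.one_le_two_pow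
      have h5 : 2 ^ (3 * L + 1) = 2 ^ (3 * L) + 2 ^ (3 * L) := by ring
      omega
    have hmain : CCOn (fun _ _ => True) (fun x y => decide (ev (F y) (ξ x) = -1))
        ((m * (D * (12 * (L + 1))) + 1) + (6 * L) * D + (3 * L + 1) * D) := by
      refine sendB lb hlb fun T₀ => ?_
      obtain ⟨U, hU⟩ : ∃ U : AddSubgroup V, U = AddSubgroup.closure ((T₀.1 : Finset V) : Set V) :=
        ⟨_, rfl⟩
      have hclos : Fintype.card (AddChar U ℂ) ≤ 2 ^ ((6 * L) * D) := by
        rw [AddChar.card_eq, ← Nat.card_eq_fintype_card, hU]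
        refine (e1_closure T₀.1 (B := r ^ 6) (fun g hg => e1_ord hr hSo (T₀.2.1 hg))).trans ?_
        have h1 : r ^ 6 ≤ 2 ^ (6 * L) := by
          calc r ^ 6 ≤ (2 ^ L) ^ 6 := Nat.pow_le_pow_left hrL 6
            _ = 2 ^ (6 * L) := by rw [← pow_mul, mul_comm]
        calc (r ^ 6) ^ T₀.1.card ≤ (2 ^ (6 * L)) ^ T₀.1.card := Nat.pow_le_pow_left h1 _
          _ ≤ (2 ^ (6 * L)) ^ D := Nat.pow_le_pow_right (by positivity) T₀.2.2
          _ = 2 ^ ((6 * L) * D) := by rw [← pow_mul]
      refine sendA (fun x => (ξ x).compAddMonoidHom U.subtype) hclos fun lam => ?_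
      have hrect := e1_rect (X := X) (Y := Y) (fun x => (ξ x).compAddMonoidHom U.subtype = lam)
        (fun y => lb y = T₀)
        (fun x y => decide (ev (F y) (ξ x) = -1)) (m * (D * (12 * (L + 1))) + 1) ?_
      · exact hrect.mono (fun x y hxy => ⟨hxy.2, hxy.1.2⟩) le_rfl
      · rintro ⟨x0, hx0⟩ -
        have hζ : ∀ x : {x // (ξ x).compAddMonoidHom U.subtype = lam}, ∃ ζ : AddChar (V ⧸ U) ℂ,
            ξ x.1 * (ξ x0)⁻¹ = ζ.compAddMonoidHom (QuotientAddGroup.mk' U) := by
          intro x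
          apply e1_desc
          intro u hu
          have h1 : (ξ x.1) u = (ξ x0) u := by
            have h2 := x.2.trans hx0.symm
            have h3 := DFunLike.congr_fun h2 ⟨u, hu⟩
            exact h3
          rw [AddChar.mul_apply, AddChar.inv_apply, h1, ← AddChar.map_add_eq_mul, add_neg_cancel,
            AddChar.map_zero_eq_one]
        choose ζ hζ using hζ
        have hker : ∀ c, (QuotientAddGroup.mk' U) c = 0 ↔
            c ∈ AddSubgroup.closure ((T₀.1 : Finset V) : Set V) := by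
          intro c
          rw [← hU]
          exact QuotientAddGroup.eq_zero_iff c
        obtain ⟨π, hπ1, hπ2⟩ := ih (V ⧸ U) (S.image (QuotientAddGroup.mk' U))
          (Finset.card_image_le.trans hS) (by
            intro c hc
            rw [Finset.mem_image] at hc
            obtain ⟨d, hd, rfl⟩ := hc
            exact (Nat.le_of_dvd (addOrderOf_pos _) (addOrderOf_map_dvd _ d)).trans (hSo d hd))
          {x // (ξ x).compAddMonoidHom U.subtype = lam} {y // lb y = T₀} ζ
          (fun y => push (QuotientAddGroup.mk' U) (F y.1) (ξ x0))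
          (fun y => push_bf (hF y.1) _ _)
          (by
            intro y c hc
            obtain ⟨d, hd, rfl⟩ := push_ne hc
            exact Finset.mem_image_of_mem _ (hFS y.1 d hd))
          (by
            intro y
            have h1 : T y.1 = T₀.1 := congrArg Subtype.val y.2
            have h2 := hT3 y.1
            rw [h1] at h2
            have h3 := half_push h2 hker (ξ x0)
            have h4 := hc y.1
            rw [pow_succ] at h4
            omega)
        refine ⟨π, ?_, hπ2⟩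
        intro x y
        rw [hπ1, ev_push, ← hζ]
        have h1 : ξ x0 * (ξ x.1 * (ξ x0)⁻¹) = ξ x.1 := by
          rw [mul_comm, mul_assoc, inv_mul_cancel, mul_one]
        rw [h1]
    obtain ⟨π, hπ1, hπ2⟩ := hmain
    refine ⟨π, fun x y => hπ2 x y trivial, hπ1.trans ?_⟩
    have h1 : (m + 1) * (D * (12 * (L + 1))) = m * (D * (12 * (L + 1))) + (12 * L + 12) * D := by
      ring
    rw [h1]
    have h2 : (6 * L) * D + (3 * L + 1) * D ≤ (12 * L + 12) * D := by
      rw [← Nat.add_mul]
      exact Nat.mul_le_mul_right D (by omega)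
    omega

end Pool.Agent.XA
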