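import Mathlib
import Pool.Agent.Lib_helper38.XA.Defs
import Pool.Agent.Lib_helper58.XA.K2a

/-! XA, block K2b: a restriction of a restriction -/

set_option autoImplicit false

namespace Pool.Agent.XA

open Finset Filter Pool.Agent.XO

variable {V : Type} [AddCommGroup V] [Fintype V] [DecidableEq V]
variable {W : Type} [AddCommGroup W] [Fintype W] [DecidableEq W]

/-- a restriction of a restriction -/
theorem kills_comp {F : V → ℂ} {π : V →+ W} (hπ : Function.Surjective π) {T1 : Finset V}
    (hT1 : ∀ c, π c = 0 ↔ c ∈ AddSubgroup.closure (T1 : Set V)) (hd1 : Dif F T1)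
    (ξ : AddChar V ℂ) {T2 : Finset W} (hd2 : Dif (push π F ξ) T2)
    (h2 : Kills (push π F ξ) T2) : ∃ T : Finset V, T.card ≤ T1.card + T2.card ∧ Dif F T ∧
      Kills F T := by
  classical
  have _ := hπ
  have hlift : ∀ g : W, ∃ l : V, g ∈ T2 → π l = g ∧
      (F l ≠ 0 ∨ ∃ c c', F c ≠ 0 ∧ F c' ≠ 0 ∧ l = c - c') := by
    intro g
    by_cases hg : g ∈ T2
    · rcases hd2 g hg with h | ⟨q, q', hq, hq', rfl⟩
      · obtain ⟨c, hc, hcg⟩ := push_ne h
        exact ⟨c, fun _ => ⟨hcg, Or.inl hc⟩⟩
      · obtain ⟨c, hc, rfl⟩ := push_ne hq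
        obtain ⟨c', hc', rfl⟩ := push_ne hq'
        exact ⟨c - c', fun _ => ⟨map_sub π c c', Or.inr ⟨c, c', hc, hc', rfl⟩⟩⟩
    · exact ⟨0, fun h => absurd h hg⟩
  choose l hl using hlift
  set T : Finset V := T1 ∪ T2.image l with hT
  have hle1 : AddSubgroup.closure (T1 : Set V) ≤ AddSubgroup.closure (T : Set V) :=
    AddSubgroup.closure_mono (by
      intro x hx
      exact Finset.mem_coe.2 (Finset.mem_union_left _ hx))
  have hcl : ∀ c, c ∈ AddSubgroup.closure (T : Set V) ↔
      π c ∈ AddSubgroup.closure (T2 : Set W) := by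
    intro c
    constructor
    · intro hc
      have h3 : AddSubgroup.closure (T : Set V) ≤
          (AddSubgroup.closure (T2 : Set W)).comap π := by
        rw [AddSubgroup.closure_le]
        intro x hx
        rw [Finset.mem_coe, hT, Finset.mem_union] at hx
        show π x ∈ AddSubgroup.closure (T2 : Set W)
        rcases hx with hx | hx
        · rw [(hT1 x).2 (AddSubgroup.subset_closure (Finset.mem_coe.2 hx))]
          exact AddSubgroup.zero_mem _
        · obtain ⟨g, hg, rfl⟩ := Finset.mem_image.1 hx
          rw [(hl g hg).1]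
          exact AddSubgroup.subset_closure (Finset.mem_coe.2 hg)
      exact h3 hc
    · intro hc
      have h3 : AddSubgroup.closure (T2 : Set W) ≤
          (AddSubgroup.closure (T : Set V)).map π := by
        rw [AddSubgroup.closure_le]
        intro g hg
        refine ⟨l g, ?_, (hl g (Finset.mem_coe.1 hg)).1⟩
        exact AddSubgroup.subset_closure (Finset.mem_coe.2
          (Finset.mem_union_right _ (Finset.mem_image_of_mem l (Finset.mem_coe.1 hg))))
      obtain ⟨d, hd, hdc⟩ := h3 hc
      have h4 : c - d ∈ AddSubgroup.closure (T : Set V) := by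
        apply hle1
        rw [← hT1, map_sub, hdc, sub_self]
      have h5 := AddSubgroup.add_mem _ h4 hd
      rwa [sub_add_cancel] at h5
  refine ⟨T, ?_, ?_, ?_⟩
  · exact (Finset.card_union_le _ _).trans (Nat.add_le_add_left Finset.card_image_le _)
  · intro g hg
    rw [hT, Finset.mem_union] at hg
    rcases hg with hg | hg
    · exact hd1 g hg
    · obtain ⟨q, hq, rfl⟩ := Finset.mem_image.1 hg
      exact (hl q hq).2
  · obtain ⟨ζ, hζ⟩ := h2
    refine ⟨ξ * ζ.compAddMonoidHom π, ?_⟩
    intro q hq
    have hq' : π q ∉ AddSubgroup.closure (T2 : Set W) := fun h => hq ((hcl q).2 h)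
    refine Eq.trans ?_ (hζ (π q) hq')
    unfold push
    calc ∑ c, (if c - q ∈ AddSubgroup.closure (T : Set V) then
          F c * (ξ * ζ.compAddMonoidHom π) c else 0)
        = ∑ c, ∑ r, if π c = r then (if r - π q ∈ AddSubgroup.closure (T2 : Set W) then
          F c * ξ c * ζ r else 0) else 0 := by
          apply Finset.sum_congr rfl
          intro c _
          rw [Finset.sum_ite_eq, if_pos (Finset.mem_univ _)]
          have h5 : c - q ∈ AddSubgroup.closure (T : Set V) ↔
              π c - π q ∈ AddSubgroup.closure (T2 : Set W) := by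
            rw [hcl, map_sub]
          by_cases h6 : π c - π q ∈ AddSubgroup.closure (T2 : Set W)
          · rw [if_pos h6, if_pos (h5.2 h6), AddChar.mul_apply, AddChar.compAddMonoidHom_apply,
              mul_assoc]
          · rw [if_neg h6, if_neg (fun h7 => h6 (h5.1 h7))]
      _ = ∑ r, ∑ c, if π c = r then (if r - π q ∈ AddSubgroup.closure (T2 : Set W) then
          F c * ξ c * ζ r else 0) else 0 := Finset.sum_comm
      _ = _ := by
          apply Finset.sum_congr rfl
          intro r _
          by_cases h6 : r - π q ∈ AddSubgroup.closure (T2 : Set W)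
          · rw [if_pos h6, Finset.sum_mul]
            apply Finset.sum_congr rfl
            intro c _
            rw [if_pos h6]
            split_ifs
            · rfl
            · rw [zero_mul]
          · rw [if_neg h6]
            apply Finset.sum_eq_zero
            intro c _
            rw [if_neg h6]
            split_ifs <;> rfl

end Pool.Agent.XA
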