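import Mathlib
import Pool.Agent.Lib_helper38.XA.Defs

/-! XA, block K3a: few generators -/

set_option autoImplicit false

namespace Pool.Agent.XA

open Finset Filter Pool.Agent.XO

variable {V : Type} [AddCommGroup V] [Fintype V] [DecidableEq V]

/-- a proper enlargement at least doubles the number of elements -/
theorem k3a_double (H K : AddSubgroup V) (hHK : H < K) : 2 * Nat.card H ≤ Nat.card K := by
  have h1 : Nat.card H ∣ Nat.card K := AddSubgroup.card_dvd_of_le hHK.le
  have h2 : Nat.card H < Nat.card K := by
    have h3 : (H : Set V) ⊂ (K : Set V) := hHK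
    exact Set.ncard_lt_ncard h3 (Set.toFinite _)
  obtain ⟨k, hk⟩ := h1
  have h4 : 0 < Nat.card H := Nat.card_pos
  have h5 : 2 ≤ k := by
    by_contra h
    have : k = 0 ∨ k = 1 := by omega
    rcases this with rfl | rfl
    · rw [hk] at h2
      omega
    · rw [hk] at h2
      omega
  rw [hk, mul_comm]
  exact Nat.mul_le_mul_left _ h5

/-- a subgroup generated by the elements of a set `D` that it contains is generated by few of them -/
theorem few_gen (D : Set V) (U : AddSubgroup V) : ∃ T : Finset V, (∀ g ∈ T, g ∈ D ∧ g ∈ U) ∧
    AddSubgroup.closure (T : Set V) = AddSubgroup.closure {g | g ∈ D ∧ g ∈ U} ∧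
    (T.card : ℝ) * Real.log 2 ≤ Real.log (Nat.card U) := by
  classical
  have hne : (univ.filter fun T : Finset V => (∀ g ∈ T, g ∈ D ∧ g ∈ U) ∧
      2 ^ T.card ≤ Nat.card (AddSubgroup.closure (T : Set V))).Nonempty := by
    refine ⟨∅, Finset.mem_filter.2 ⟨Finset.mem_univ _, fun g hg => absurd hg (Finset.notMem_empty _),
      ?_⟩⟩
    rw [Finset.card_empty, pow_zero]
    exact Nat.card_pos
  obtain ⟨T, hT, hmax⟩ := Finset.exists_max_image _
    (fun T : Finset V => Nat.card (AddSubgroup.closure (T : Set V))) hne
  rw [Finset.mem_filter] at hT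
  obtain ⟨-, hT1, hT2⟩ := hT
  have hTU : AddSubgroup.closure (T : Set V) ≤ U := by
    rw [AddSubgroup.closure_le]
    intro g hg
    exact (hT1 g hg).2
  refine ⟨T, hT1, ?_, ?_⟩
  · apply le_antisymm
    · apply AddSubgroup.closure_mono
      intro g hg
      exact hT1 g hg
    · rw [AddSubgroup.closure_le]
      intro g hg
      by_contra hgT
      have hgT' : g ∉ AddSubgroup.closure (T : Set V) := hgT
      have hlt : AddSubgroup.closure (T : Set V) <
          AddSubgroup.closure ((insert g T : Finset V) : Set V) := by
        refine lt_of_le_of_ne (AddSubgroup.closure_mono (by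
          intro x hx
          exact Finset.mem_coe.2 (Finset.mem_insert_of_mem hx))) ?_
        intro h
        apply hgT'
        rw [h]
        exact AddSubgroup.subset_closure (Finset.mem_coe.2 (Finset.mem_insert_self g T))
      have h2 := k3a_double _ _ hlt
      have hgnot : g ∉ T := fun h => hgT' (AddSubgroup.subset_closure h)
      have h3 := hmax (insert g T) (Finset.mem_filter.2 ⟨Finset.mem_univ _, by
        intro x hx
        rcases Finset.mem_insert.1 hx with rfl | h
        · exact hg
        · exact hT1 x h, by
        rw [Finset.card_insert_of_notMem hgnot, pow_succ, mul_comm]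
        exact (Nat.mul_le_mul_left 2 hT2).trans h2⟩)
      have h4 : 0 < Nat.card (AddSubgroup.closure (T : Set V)) := Nat.card_pos
      have h5 : Nat.card (AddSubgroup.closure ((insert g T : Finset V) : Set V)) ≤
          Nat.card (AddSubgroup.closure (T : Set V)) := h3
      omega
  · have h1 : 2 ^ T.card ≤ Nat.card U := hT2.trans (AddSubgroup.card_le_of_le hTU)
    have h2 : ((2 : ℝ)) ^ T.card ≤ Nat.card U := by exact_mod_cast h1
    calc (T.card : ℝ) * Real.log 2 = Real.log ((2 : ℝ) ^ T.card) := by rw [Real.log_pow]
      _ ≤ Real.log (Nat.card U) := Real.log_le_log (by positivity) h2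

end Pool.Agent.XA
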