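import Mathlib
import Pool.Agent.Lib_helper38.XA.Defs
import Pool.Agent.Lib_helper98.XA.K1
import Pool.Agent.Lib_helper80.XA.K3b
import Pool.Agent.Lib_helper58.XA.K3a

/-! XA, block K3c: if spread fails then some restriction has a smaller spectral norm -/

set_option autoImplicit false

namespace Pool.Agent.XA

open Finset Filter Pool.Agent.XO

variable {V : Type} [AddCommGroup V] [Fintype V] [DecidableEq V]

/-- one class: the quadratic mean -/
theorem k3c_class {W : Type} [AddCommGroup W] [DecidableEq W] (F : V → ℂ) (π : V →+ W) (q : W)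
    (m : V) (hm : π m = q) (hmax : ∀ c, π c = q → ‖F c‖ ≤ ‖F m‖) :
    Real.sqrt (∑ c, if π c = q then ‖F c‖ ^ 2 else 0) ≤
      ∑ c, (if π c = q then ‖F c‖ else 0) -
        (∑ c, if π c = q ∧ c ≠ m then ‖F c‖ else 0) / 2 := by
  have e1 : ∑ c, (if π c = q then ‖F c‖ else 0) =
      ‖F m‖ + ∑ c, (if π c = q ∧ c ≠ m then ‖F c‖ else 0) := by
    rw [← Finset.add_sum_erase univ _ (Finset.mem_univ m), if_pos hm,
      ← Finset.add_sum_erase univ (fun c => if π c = q ∧ c ≠ m then ‖F c‖ else 0)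
        (Finset.mem_univ m), if_neg (fun h => h.2 rfl), zero_add]
    congr 1
    apply Finset.sum_congr rfl
    intro c hc
    have hne : c ≠ m := Finset.ne_of_mem_erase hc
    by_cases h : π c = q
    · rw [if_pos h, if_pos ⟨h, hne⟩]
    · rw [if_neg h, if_neg (fun h' => h h'.1)]
  have e2 : ∑ c, (if π c = q then ‖F c‖ ^ 2 else 0) =
      ‖F m‖ ^ 2 + ∑ c, (if π c = q ∧ c ≠ m then ‖F c‖ ^ 2 else 0) := by
    rw [← Finset.add_sum_erase univ _ (Finset.mem_univ m), if_pos hm,
      ← Finset.add_sum_erase univ (fun c => if π c = q ∧ c ≠ m then ‖F c‖ ^ 2 else 0)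
        (Finset.mem_univ m), if_neg (fun h => h.2 rfl), zero_add]
    congr 1
    apply Finset.sum_congr rfl
    intro c hc
    have hne : c ≠ m := Finset.ne_of_mem_erase hc
    by_cases h : π c = q
    · rw [if_pos h, if_pos ⟨h, hne⟩]
    · rw [if_neg h, if_neg (fun h' => h h'.1)]
  have e3 : ∑ c, (if π c = q ∧ c ≠ m then ‖F c‖ ^ 2 else 0) ≤
      ‖F m‖ * ∑ c, (if π c = q ∧ c ≠ m then ‖F c‖ else 0) := by
    rw [Finset.mul_sum]
    apply Finset.sum_le_sum
    intro c _
    split_ifs with h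
    · rw [sq]
      exact mul_le_mul_of_nonneg_right (hmax c h.1) (norm_nonneg _)
    · rw [mul_zero]
  have hb : 0 ≤ ∑ c, (if π c = q ∧ c ≠ m then ‖F c‖ else 0) :=
    Finset.sum_nonneg fun c _ => by split_ifs <;> [exact norm_nonneg _; exact le_rfl]
  rw [e1, e2]
  apply Real.sqrt_le_iff.2
  constructor
  · have := norm_nonneg (F m)
    linarith
  · have := norm_nonneg (F m)
    nlinarith

/-- if spread fails then some restriction has a smaller spectral norm -/
theorem astep {F : V → ℂ} (hF : BF F) {s κ κ' : ℝ} (hs : 1 ≤ s)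
    (hS : ¬ ASpread (fun c => ‖F c‖ / L1 F) s κ κ') :
    ∃ T : Finset V, (T.card : ℝ) ≤ 2 * s ^ κ ∧ Dif F T ∧
      ∀ (W : Type) [AddCommGroup W] [Fintype W] [DecidableEq W] (π : V →+ W),
        Function.Surjective π → (∀ c, π c = 0 ↔ c ∈ AddSubgroup.closure (T : Set V)) →
        ∃ ξ : AddChar V ℂ, L1 (push π F ξ) ≤ L1 F * (1 - s ^ (-κ') / 2) := by
  classical
  have hL1 : 1 ≤ L1 F := bf_L1_ge hF
  have hL0 : 0 < L1 F := by linarith
  unfold ASpread at hS
  push Not at hS
  obtain ⟨U, hU, hLt⟩ := hS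
  obtain ⟨T, hT1, hT2, hT3⟩ := few_gen {g | ∃ c c', F c ≠ 0 ∧ F c' ≠ 0 ∧ g = c - c'} U
  refine ⟨T, ?_, ?_, ?_⟩
  · have h1 : (1 : ℝ) / 2 < Real.log 2 := by
      have := Real.log_two_gt_d9
      linarith
    have h2 : (T.card : ℝ) * (1 / 2) ≤ T.card * Real.log 2 :=
      mul_le_mul_of_nonneg_left h1.le (Nat.cast_nonneg _)
    linarith
  · intro g hg
    exact Or.inr (hT1 g hg).1
  intro W _ _ _ π hπ hker
  -- congruence modulo `U` on the support
  have hcong : ∀ c c', F c ≠ 0 → F c' ≠ 0 → c - c' ∈ U → π c = π c' := by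
    intro c c' hc hc' hcc
    rw [← sub_eq_zero, ← map_sub, hker, hT2]
    exact AddSubgroup.subset_closure ⟨⟨c, c', hc, hc', rfl⟩, hcc⟩
  -- a heaviest element in each class
  have hex : ∀ q : W, ∃ m : V, π m = q ∧ ∀ c, π c = q → ‖F c‖ ≤ ‖F m‖ := by
    intro q
    obtain ⟨c₀, hc₀⟩ := hπ q
    obtain ⟨m, hm, hmax⟩ := Finset.exists_max_image (univ.filter fun c => π c = q)
      (fun c => ‖F c‖) ⟨c₀, Finset.mem_filter.2 ⟨Finset.mem_univ _, hc₀⟩⟩
    exact ⟨m, (Finset.mem_filter.1 hm).2, fun c hc =>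
      hmax c (Finset.mem_filter.2 ⟨Finset.mem_univ _, hc⟩)⟩
  choose m hm hmax using hex
  have hLs := hLt (univ.filter fun c => F c ≠ 0 ∧ c ≠ m (π c)) (by
    intro c c' hc hc' hne hcc
    have hc1 : F c ≠ 0 := by
      intro h
      apply hc
      rw [h, norm_zero, zero_div]
    have hc2 : F c' ≠ 0 := by
      intro h
      apply hc'
      rw [h, norm_zero, zero_div]
    have h1 := hcong c c' hc1 hc2 hcc
    by_cases h2 : c = m (π c)
    · right
      rw [Finset.mem_filter]
      refine ⟨Finset.mem_univ _, hc2, fun h3 => hne ?_⟩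
      rw [h2, h3, h1]
    · left
      rw [Finset.mem_filter]
      exact ⟨Finset.mem_univ _, hc1, h2⟩)
  have hsum : s ^ (-κ') * L1 F ≤ ∑ q, ∑ c, (if π c = q ∧ c ≠ m q then ‖F c‖ else 0) := by
    have h1 : ∑ c ∈ univ.filter (fun c => F c ≠ 0 ∧ c ≠ m (π c)), ‖F c‖ / L1 F =
        (∑ c, if c ≠ m (π c) then ‖F c‖ else 0) / L1 F := by
      rw [← Finset.sum_div, Finset.sum_filter]
      congr 1
      apply Finset.sum_congr rfl
      intro c _
      by_cases h2 : F c = 0
      · rw [h2, norm_zero]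
        simp
      · by_cases h3 : c = m (π c)
        · rw [if_neg (fun h => h.2 h3), if_neg (fun h => h h3)]
        · rw [if_pos ⟨h2, h3⟩, if_pos h3]
    rw [h1, lt_div_iff₀ hL0] at hLs
    refine hLs.le.trans (le_of_eq ?_)
    rw [Finset.sum_comm]
    apply Finset.sum_congr rfl
    intro c _
    rw [Finset.sum_eq_single (π c)]
    · by_cases h3 : c = m (π c)
      · rw [if_neg (fun h => h h3), if_neg (fun h => h.2 h3)]
      · rw [if_pos h3, if_pos ⟨rfl, h3⟩]
    · intro b _ hb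
      rw [if_neg (fun h => hb h.1.symm)]
    · intro h
      exact absurd (Finset.mem_univ _) h
  -- the mean
  have hmean : (∑ ξ : AddChar V ℂ, L1 (push π F ξ)) / Fintype.card V ≤
      L1 F * (1 - s ^ (-κ') / 2) := by
    have h1 : (∑ ξ : AddChar V ℂ, L1 (push π F ξ)) / Fintype.card V =
        ∑ q, (∑ ξ : AddChar V ℂ, ‖push π F ξ q‖) / Fintype.card V := by
      unfold L1
      rw [Finset.sum_comm, Finset.sum_div]
    rw [h1]
    have h2 : ∑ q, ∑ c, (if π c = q then ‖F c‖ else 0) = L1 F := by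
      unfold L1
      rw [Finset.sum_comm]
      apply Finset.sum_congr rfl
      intro c _
      rw [Finset.sum_ite_eq, if_pos (Finset.mem_univ _)]
    calc ∑ q, (∑ ξ : AddChar V ℂ, ‖push π F ξ q‖) / Fintype.card V
        ≤ ∑ q, (∑ c, (if π c = q then ‖F c‖ else 0) -
            (∑ c, if π c = q ∧ c ≠ m q then ‖F c‖ else 0) / 2) := by
          apply Finset.sum_le_sum
          intro q _
          exact (push_avg π q).trans (k3c_class F π q (m q) (hm q) (hmax q))
      _ = L1 F - (∑ q, ∑ c, (if π c = q ∧ c ≠ m q then ‖F c‖ else 0)) / 2 := by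
          rw [Finset.sum_sub_distrib, h2, Finset.sum_div]
      _ ≤ L1 F * (1 - s ^ (-κ') / 2) := by linarith
  by_contra hcon
  push Not at hcon
  have hcard : (Fintype.card (AddChar V ℂ) : ℝ) = Fintype.card V := by
    exact_mod_cast AddChar.card_eq
  have hpos : (0 : ℝ) < Fintype.card V := by
    exact_mod_cast Fintype.card_pos
  have h3 : ∑ _ξ : AddChar V ℂ, L1 F * (1 - s ^ (-κ') / 2) <
      ∑ ξ : AddChar V ℂ, L1 (push π F ξ) :=
    Finset.sum_lt_sum_of_nonempty ⟨0, Finset.mem_univ _⟩ (fun ξ _ => hcon ξ)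
  rw [Finset.sum_const, Finset.card_univ, nsmul_eq_mul, hcard] at h3
  rw [div_le_iff₀ hpos] at hmean
  linarith

end Pool.Agent.XA
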