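import Mathlib
import Pool.Agent.Lib_helper38.XA.Defs
import Pool.Agent.Lib_helper98.XA.K1

/-! XA, block K3d: the world of a function -/

set_option autoImplicit false

namespace Pool.Agent.XA

open Finset Filter Pool.Agent.XO

variable {V : Type} [AddCommGroup V] [Fintype V] [DecidableEq V]

/-- the world of a function -/
theorem aworld_of {F : V → ℂ} (hF : BF F) {s κ κ' κ2 : ℝ} (hs : 1 ≤ s)
    (hcard : ((spt F).card : ℝ) ≤ s) (hord : ∀ c, F c ≠ 0 → (addOrderOf c : ℝ) ≤ s ^ (3 : ℕ))
    (hL : s ^ κ2 ≤ L1 F) (hS : ASpread (fun c => ‖F c‖ / L1 F) s κ κ') :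
    AWorld (fun c => ‖F c‖ / L1 F) (fun c => if F c = 0 then 1 else F c / ‖F c‖) s κ κ' κ2 := by
  classical
  have hs0 : 0 < s := by linarith
  have hL1 : 1 ≤ L1 F := bf_L1_ge hF
  have hL0 : 0 < L1 F := by linarith
  have hne : ∀ c, ‖F c‖ / L1 F ≠ 0 → F c ≠ 0 := by
    intro c hc h
    apply hc
    rw [h, norm_zero, zero_div]
  have hpe : ∀ c, ((‖F c‖ / L1 F : ℝ) : ℂ) * (if F c = 0 then 1 else F c / ‖F c‖) =
      F c / L1 F := by
    intro c
    by_cases hc : F c = 0
    · rw [if_pos hc, hc, norm_zero]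
      simp
    · rw [if_neg hc]
      have h1 : (‖F c‖ : ℂ) ≠ 0 := by
        exact_mod_cast norm_ne_zero_iff.2 hc
      have h2 : (L1 F : ℂ) ≠ 0 := by exact_mod_cast hL0.ne'
      push_cast
      field_simp
  refine
    { law := ⟨fun c => by positivity, ?_⟩
      card := ?_
      spread := hS
      ord := fun c hc => hord c (hne c hc)
      unit := ?_
      bal := ?_
      small := ?_ }
  · rw [← Finset.sum_div]
    exact div_self hL0.ne'
  · refine le_trans ?_ hcard
    have h1 : (univ.filter fun c => ‖F c‖ / L1 F ≠ 0) ⊆ spt F := by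
      intro c hc
      unfold spt
      rw [Finset.mem_filter] at hc ⊢
      exact ⟨Finset.mem_univ _, hne c hc.2⟩
    exact_mod_cast Finset.card_le_card h1
  · intro c
    by_cases hc : F c = 0
    · simp only [if_pos hc, norm_one]
    · have h1 : ‖F c‖ ≠ 0 := norm_ne_zero_iff.2 hc
      simp only [if_neg hc, norm_div, Complex.norm_real, norm_norm]
      exact div_self h1
  · intro g hg
    have h1 : ∀ c, (((‖F c‖ / L1 F) * (‖F (g - c)‖ / L1 F) : ℝ) : ℂ) *
        ((if F c = 0 then 1 else F c / ‖F c‖) *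
          (if F (g - c) = 0 then 1 else F (g - c) / ‖F (g - c)‖)) =
        F c * F (g - c) / (L1 F * L1 F) := by
      intro c
      have h2 := hpe c
      have h3 := hpe (g - c)
      calc _ = (((‖F c‖ / L1 F : ℝ) : ℂ) * (if F c = 0 then 1 else F c / ‖F c‖)) *
            (((‖F (g - c)‖ / L1 F : ℝ) : ℂ) *
              (if F (g - c) = 0 then 1 else F (g - c) / ‖F (g - c)‖)) := by
            push_cast
            ring
        _ = F c / L1 F * (F (g - c) / L1 F) := by rw [h2, h3]
        _ = _ := by rw [div_mul_div_comm]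
    rw [Finset.sum_congr rfl (fun c _ => h1 c), ← Finset.sum_div, hF.conv g, if_neg hg, zero_div]
  · intro c
    have h1 : 0 < s ^ κ2 := by positivity
    calc ‖F c‖ / L1 F ≤ 1 / L1 F := div_le_div_of_nonneg_right (bf_le_one hF c) hL0.le
      _ ≤ 1 / s ^ κ2 := one_div_le_one_div_of_le h1 hL
      _ = s ^ (-κ2) := by rw [Real.rpow_neg hs0.le, one_div]

end Pool.Agent.XA
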