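import Mathlib
import Pool.Agent.Lib_helper38.XA.Defs
import Pool.Agent.Lib_helper94.XO.Pr
import Pool.Agent.Lib_helper94.XO.F.P2_A1
import Pool.Agent.Lib_helper94.XO.F.P2_C2

/-! XA, blocks A2 and A3: gates exist; light pairs -/

set_option autoImplicit false

namespace Pool.Agent.XA

open Finset Filter Pool.Agent.XO

variable {V : Type} [AddCommGroup V] [Fintype V] [DecidableEq V]

/-- the balance of a fibre with respect to a unit complex number -/
theorem a3_bal {p : V → ℝ} {e : V → ℂ} {s κ κ' κ2 : ℝ} (h : AWorld p e s κ κ' κ2) {g : V}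
    (hg : g ≠ 0) (w : ℂ) :
    ∑ c, p c * p (g - c) * ((e c * e (g - c)) * (starRingEnd ℂ) w).re = 0 := by
  have h1 := h.bal g hg
  have h2 : ((∑ c, ((p c * p (g - c) : ℝ) : ℂ) * (e c * e (g - c))) * (starRingEnd ℂ) w).re = 0 := by
    rw [h1, zero_mul, Complex.zero_re]
  rw [Finset.sum_mul, Complex.re_sum] at h2
  rw [← h2]
  apply Finset.sum_congr rfl
  intro c _
  rw [mul_assoc (((p c * p (g - c) : ℝ) : ℂ)), Complex.re_ofReal_mul]

theorem a3_self {e : V → ℂ} (he : ∀ c, ‖e c‖ = 1) (a b : V) :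
    ((e a * e b) * (starRingEnd ℂ) (e a * e b)).re = 1 := by
  rw [Complex.mul_conj, Complex.ofReal_re, Complex.normSq_eq_norm_sq, norm_mul, he, he]
  norm_num

theorem a3_ge {z w : ℂ} (hz : ‖z‖ = 1) (hw : ‖w‖ = 1) : -1 ≤ (z * (starRingEnd ℂ) w).re := by
  have h1 := Complex.abs_re_le_norm (z * (starRingEnd ℂ) w)
  rw [norm_mul, RCLike.norm_conj, hz, hw, one_mul] at h1
  exact (abs_le.1 h1).1

/-- a far pair exists -/
theorem a2_pair {p : V → ℝ} {e : V → ℂ} {s κ κ' κ2 : ℝ} (h : AWorld p e s κ κ' κ2) {a b : V}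
    (ha : p a ≠ 0) (hb : p b ≠ 0) (hab : a + b ≠ 0) :
    ∃ x, 0 < p x * p (a + b - x) ∧ Far (e x * e (a + b - x)) (e a * e b) := by
  have hnn := h.law.nonneg
  by_contra hcon
  push Not at hcon
  have hab' : (a + b) - a = b := by abel
  have hpa : 0 < p a := lt_of_le_of_ne (hnn a) (Ne.symm ha)
  have hpb : 0 < p b := lt_of_le_of_ne (hnn b) (Ne.symm hb)
  have hbal := a3_bal h hab (e a * e b)
  have hterm : ∀ c, 0 ≤ p c * p (a + b - c) *
      ((e c * e (a + b - c)) * (starRingEnd ℂ) (e a * e b)).re := by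
    intro c
    rcases (mul_nonneg (hnn c) (hnn (a + b - c))).lt_or_eq with h0 | h0
    · have h1 := hcon c h0
      unfold Far at h1
      push Not at h1
      exact mul_nonneg h0.le (by linarith)
    · rw [← h0, zero_mul]
  have hpos : 0 < p a * p (a + b - a) *
      ((e a * e (a + b - a)) * (starRingEnd ℂ) (e a * e b)).re := by
    rw [hab', a3_self h.unit, mul_one]
    exact mul_pos hpa hpb
  have hsum : 0 < ∑ c, p c * p (a + b - c) *
      ((e c * e (a + b - c)) * (starRingEnd ℂ) (e a * e b)).re :=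
    Finset.sum_pos' (fun c _ => hterm c) ⟨a, mem_univ a, hpos⟩
  rw [hbal] at hsum
  exact lt_irrefl _ hsum

/-- gates exist -/
theorem agate_exists {p : V → ℝ} {e : V → ℂ} {s κ κ' κ2 : ℝ} (h : AWorld p e s κ κ' κ2) :
    ∃ σ, AGate p e σ := by
  classical
  have key : ∀ a b : V, ∃ t : V × V, p a ≠ 0 → p b ≠ 0 → a + b ≠ 0 →
      t.1 + t.2 = a + b ∧ 0 < p t.1 * p t.2 ∧ Far (e t.1 * e t.2) (e a * e b) ∧
      ∀ x y, x + y = a + b → Far (e x * e y) (e a * e b) → p x * p y ≤ p t.1 * p t.2 := by
    intro a b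
    by_cases hab : p a ≠ 0 ∧ p b ≠ 0 ∧ a + b ≠ 0
    · obtain ⟨ha, hb, hne⟩ := hab
      obtain ⟨x0, h0, h1⟩ := a2_pair h ha hb hne
      have hS : (univ.filter (fun x => Far (e x * e (a + b - x)) (e a * e b))).Nonempty :=
        ⟨x0, mem_filter.2 ⟨mem_univ _, h1⟩⟩
      obtain ⟨m, hm, hmax⟩ := Finset.exists_max_image _ (fun x => p x * p (a + b - x)) hS
      refine ⟨(m, a + b - m), fun _ _ _ => ⟨?_, ?_, ?_, ?_⟩⟩
      · show m + (a + b - m) = a + b
        abel
      · exact lt_of_lt_of_le h0 (hmax x0 (mem_filter.2 ⟨mem_univ _, h1⟩))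
      · exact (mem_filter.1 hm).2
      · intro x y hxy he
        have hy : y = a + b - x := by rw [← hxy]; abel
        subst hy
        exact hmax x (mem_filter.2 ⟨mem_univ _, he⟩)
    · refine ⟨(a, b), fun ha hb hne => ?_⟩
      exact absurd ⟨ha, hb, hne⟩ hab
  choose σ hσ using key
  exact ⟨σ, fun a b ha hb hab => hσ a b ha hb hab⟩

/-- light pairs: `∑ p p Re (..) = 0` over a fibre, so the mass of the far pairs is at least a third
of the fibre -/
theorem alight_pair {p : V → ℝ} {e : V → ℂ} {s κ κ' κ2 : ℝ}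
    (h : AWorld p e s κ κ' κ2) {v δ : ℝ} (hv : 0 < v)
    (ht : pr (fun c : Fin 2 → V => pw p c) (fun c => pw p c < v * cp p 2 (∑ i, c i)) ≤ δ) :
    pr (fun c : Fin 2 → V => pw p c) (fun c => ALight p e v (c 0) (c 1)) ≤ 3 * δ := by
  classical
  have _ := hv
  have hp := h.law
  have hm0 : ∀ g x : V, 0 ≤ p x * p (g - x) := fun g x => mul_nonneg (hp.nonneg _) (hp.nonneg _)
  have e1 : pr (fun c : Fin 2 → V => pw p c) (fun c => ALight p e v (c 0) (c 1)) =
      ∑ g, ∑ x, if ALight p e v x (g - x) then p x * p (g - x) else 0 := by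
    rw [← c2_sum (fun a b => if ALight p e v a b then p a * p b else 0)]
    unfold pr
    refine Finset.sum_congr rfl fun c _ => ?_
    have h2 : pw p c = p (c 0) * p (c 1) := Fin.prod_univ_two _
    simp only [h2]
  have e2 : pr (fun c : Fin 2 → V => pw p c) (fun c => pw p c < v * cp p 2 (∑ i, c i)) =
      ∑ g, ∑ x, if p x * p (g - x) < v * cp p 2 g then p x * p (g - x) else 0 := by
    have h3 : ∀ g x : V, (if p x * p (g - x) < v * cp p 2 g then p x * p (g - x) else 0) =
        (fun a b : V => if p a * p b < v * cp p 2 (a + b) then p a * p b else 0) x (g - x) := by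
      intro g x
      simp only [add_sub_cancel]
    rw [Finset.sum_congr rfl fun g _ => Finset.sum_congr rfl fun x _ => h3 g x,
      ← c2_sum (fun a b => if p a * p b < v * cp p 2 (a + b) then p a * p b else 0)]
    unfold pr
    refine Finset.sum_congr rfl fun c _ => ?_
    have h2 : pw p c = p (c 0) * p (c 1) := Fin.prod_univ_two _
    simp only [h2, Fin.sum_univ_two]
  rw [e1]
  have key : ∀ g : V, ∑ x, (if ALight p e v x (g - x) then p x * p (g - x) else 0) ≤
      3 * ∑ x, if p x * p (g - x) < v * cp p 2 g then p x * p (g - x) else 0 := by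
    intro g
    by_cases hex : ∃ x, ALight p e v x (g - x)
    · obtain ⟨x₀, hne, hl⟩ := hex
      rw [add_sub_cancel] at hl hne
      have hbal := a3_bal h hne (e x₀ * e (g - x₀))
      have hunit : ∀ a b, ‖e a * e b‖ = 1 := fun a b => by
        rw [norm_mul, h.unit, h.unit, one_mul]
      have hterm : ∀ x, (1 / 2) * (p x * p (g - x)) -
          (3 / 2) * (if p x * p (g - x) < v * cp p 2 g then p x * p (g - x) else 0) ≤
          p x * p (g - x) * ((e x * e (g - x)) * (starRingEnd ℂ) (e x₀ * e (g - x₀))).re := by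
        intro x
        have h0 := hm0 g x
        by_cases hx : Far (e x * e (g - x)) (e x₀ * e (g - x₀))
        · rw [if_pos (hl x (g - x) (add_sub_cancel _ _) hx)]
          have h3 := a3_ge (hunit x (g - x)) (hunit x₀ (g - x₀))
          nlinarith
        · unfold Far at hx
          push Not at hx
          have h4 : 0 ≤ (if p x * p (g - x) < v * cp p 2 g then p x * p (g - x) else 0) := by
            split_ifs
            · exact h0
            · exact le_rfl
          nlinarith
      have h5 := Finset.sum_le_sum fun x (_ : x ∈ univ) => hterm x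
      rw [hbal, Finset.sum_sub_distrib, ← Finset.mul_sum, ← Finset.mul_sum, ← c2_cp] at h5
      have h6 : ∑ x, (if ALight p e v x (g - x) then p x * p (g - x) else 0) ≤ cp p 2 g := by
        rw [c2_cp]
        refine Finset.sum_le_sum fun x _ => ?_
        split_ifs
        · exact le_rfl
        · exact hm0 g x
      linarith
    · push Not at hex
      have h7 : ∑ x, (if ALight p e v x (g - x) then p x * p (g - x) else 0) = 0 :=
        Finset.sum_eq_zero fun x _ => if_neg (hex x)
      rw [h7]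
      refine mul_nonneg (by norm_num) (Finset.sum_nonneg fun x _ => ?_)
      split_ifs
      · exact hm0 g x
      · exact le_rfl
  refine (Finset.sum_le_sum fun g _ => key g).trans ?_
  rw [← Finset.mul_sum, ← e2]
  linarith

end Pool.Agent.XA
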