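import Mathlib
import Pool.Agent.Lib_helper38.XA.Defs
import Pool.Agent.Lib_helper35.XA.G1

/-! XA, block G5: the rank of a family of functions which is invariant under translations -/

set_option autoImplicit false

namespace Pool.Agent.XA

open Finset Filter Pool.Agent.XO

section ft

variable {A : Type} [AddCommGroup A] [Fintype A]

/-- a real space of functions has a complex hull of at most the same dimension -/
theorem g5_hull {A Y : Type} [Fintype A] (g : Y → A → ℝ) :
    Module.finrank ℂ (Submodule.span ℂ (Set.range fun (y : Y) (a : A) => (g y a : ℂ))) ≤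
      Module.finrank ℝ (Submodule.span ℝ (Set.range g)) := by
  set W := Submodule.span ℝ (Set.range g) with hW
  set b := Module.finBasis ℝ W with hb
  set v : Fin (Module.finrank ℝ W) → A → ℂ := fun i a => (((b i : W) : A → ℝ) a : ℂ) with hv
  have h1 : Submodule.span ℂ (Set.range fun (y : Y) (a : A) => (g y a : ℂ)) ≤
      Submodule.span ℂ (Set.range v) := by
    rw [Submodule.span_le]
    rintro _ ⟨y, rfl⟩
    have hy : g y ∈ W := Submodule.subset_span ⟨y, rfl⟩
    have h2 := b.sum_repr ⟨g y, hy⟩
    have h3 : (fun a : A => (g y a : ℂ)) = ∑ i, ((b.repr ⟨g y, hy⟩ i : ℝ) : ℂ) • v i := by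
      ext a
      have h4 := congrArg (fun w : W => ((w : A → ℝ) a : ℂ)) h2
      simp only at h4
      rw [← h4]
      simp only [hv, Submodule.coe_sum, Submodule.coe_smul, Finset.sum_apply, Pi.smul_apply,
        smul_eq_mul]
      push_cast
      rfl
    show (fun a : A => (g y a : ℂ)) ∈ Submodule.span ℂ (Set.range v)
    rw [h3]
    exact Submodule.sum_mem _ fun i _ => Submodule.smul_mem _ _ (Submodule.subset_span ⟨i, rfl⟩)
  refine (Submodule.finrank_mono h1).trans ?_
  refine (finrank_range_le_card v).trans ?_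
  rw [Fintype.card_fin]

open Classical in
/-- the rank of a family of functions which is invariant under translations -/
theorem rank_inv {Y : Type} [Fintype Y] (g : Y → A → ℝ)
    (hg : ∀ y b, ∃ y', ∀ a, g y' a = g y (a + b)) :
    (univ.filter fun χ : AddChar A ℂ => ∃ y, ft (g y) χ ≠ 0).card ≤
      (Matrix.of fun (a : A) (y : Y) => g y a).rank := by
  have hrank : (Matrix.of fun (a : A) (y : Y) => g y a).rank =
      Module.finrank ℝ (Submodule.span ℝ (Set.range g)) := by
    rw [Matrix.rank_eq_finrank_span_cols]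
    rfl
  rw [hrank]
  refine le_trans ?_ (g5_hull g)
  set W := Submodule.span ℂ (Set.range fun (y : Y) (a : A) => (g y a : ℂ)) with hW
  -- the characters are in `W`
  have hmem : ∀ χ : AddChar A ℂ, (∃ y, ft (g y) χ ≠ 0) → (χ : A → ℂ) ∈ W := by
    rintro χ ⟨y, hy⟩
    choose t ht using fun b => hg y b
    have h1 : (∑ b, (starRingEnd ℂ) (χ b) • (fun a : A => (g (t b) a : ℂ))) ∈ W :=
      Submodule.sum_mem _ fun b _ => Submodule.smul_mem _ _ (Submodule.subset_span ⟨t b, rfl⟩)
    have h2 : (∑ b, (starRingEnd ℂ) (χ b) • (fun a : A => (g (t b) a : ℂ))) =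
        ((Fintype.card A : ℂ) * ft (g y) χ) • (χ : A → ℂ) := by
      ext a
      rw [Finset.sum_apply]
      simp only [Pi.smul_apply, smul_eq_mul]
      have h3 : (Fintype.card A : ℂ) * ft (g y) χ =
          ∑ c, (g y c : ℂ) * (starRingEnd ℂ) (χ c) := by
        unfold ft
        rw [← mul_assoc, mul_inv_cancel₀ g1_card_ne, one_mul]
      rw [h3, Finset.sum_mul]
      refine Fintype.sum_equiv (Equiv.addLeft a) _ _ ?_
      intro b
      simp only [Equiv.coe_addLeft]
      rw [ht b a, AddChar.map_add_eq_mul, map_mul]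
      have h4 : (starRingEnd ℂ) (χ a) * χ a = 1 := by
        rw [← AddChar.map_neg_eq_conj, ← AddChar.map_add_eq_mul, neg_add_cancel,
          AddChar.map_zero_eq_one]
      calc (starRingEnd ℂ) (χ b) * (g y (a + b) : ℂ)
          = (g y (a + b) : ℂ) * (starRingEnd ℂ) (χ b) * ((starRingEnd ℂ) (χ a) * χ a) := by
            rw [h4]; ring
        _ = _ := by ring
    rw [h2] at h1
    have hne : (Fintype.card A : ℂ) * ft (g y) χ ≠ 0 := mul_ne_zero g1_card_ne hy
    have h5 := Submodule.smul_mem W ((Fintype.card A : ℂ) * ft (g y) χ)⁻¹ h1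
    rwa [smul_smul, inv_mul_cancel₀ hne, one_smul] at h5
  -- independence
  have hli : LinearIndependent ℂ (fun χ : {χ : AddChar A ℂ // ∃ y, ft (g y) χ ≠ 0} =>
      (⟨(χ.1 : A → ℂ), hmem χ.1 χ.2⟩ : W)) := by
    have h1 := (AddChar.linearIndependent A ℂ).comp
      (fun χ : {χ : AddChar A ℂ // ∃ y, ft (g y) χ ≠ 0} => χ.1) Subtype.val_injective
    exact LinearIndependent.of_comp W.subtype h1
  have h6 := hli.fintype_card_le_finrank
  rw [Fintype.card_subtype] at h6
  exact h6

end ft

end Pool.Agent.XA
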