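import Mathlib
import Pool.Agent.Lib_helper10.LogRank.Defs
import Pool.Agent.Lib_helper10.LogRank.Proto
import Pool.Agent.Lib_helper38.XA.Defs
import Pool.Agent.Lib_helper58.XA.E1g
import Pool.Agent.Lib_helper59.XA.H1

/-! XA, block H2: the final theorem -/

set_option autoImplicit false

namespace Pool.Agent.XA

open Finset Filter Pool.Agent.XO Pool.Agent.Lib_helper10.LogRank

/-- the rank of a matrix made of rows of another matrix -/
theorem h2_rank {X X' Y : Type} [Fintype X] [Fintype Y] (f : X' → X)
    (G : X → Y → Bool) : realRank (fun (x : X') (y : Y) => G (f x) y) ≤ realRank G := by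
  classical
  unfold realRank
  have h1 : (Matrix.of fun (x : X') (y : Y) => if G (f x) y then (1 : ℝ) else 0) =
      (Matrix.of fun (x' : X') (x : X) => if x = f x' then (1 : ℝ) else 0) *
        (Matrix.of fun (x : X) (y : Y) => if G x y then (1 : ℝ) else 0) := by
    ext x' y
    rw [Matrix.mul_apply]
    simp only [Matrix.of_apply]
    rw [Finset.sum_eq_single (f x')]
    · simp
    · intro b _ hb
      rw [if_neg hb, zero_mul]
    · intro h
      exact absurd (Finset.mem_univ _) h
  rw [h1]
  exact Matrix.rank_mul_le_right _ _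

/-- FINAL THEOREM: matrices with an abelian group of automorphisms -/
theorem afinal (h : NoAWorld) {ε : ℝ} (hε : 0 < ε) : ∃ C : ℝ, ∀ (A : Type) [CommGroup A]
    [Finite A] (X Y : Type) [Fintype X] [Fintype Y] [MulAction A X] [MulAction A Y]
    (F : X → Y → Bool) (u : X → Bool) (v : Y → Bool),
    (∀ (a : A) x y, F (a • x) (a • y) = F x y) →
    ∃ π : Protocol X Y, (∀ x y, π.eval x y = (F x y ^^ u x ^^ v y)) ∧
      (π.cost : ℝ) ≤ Nat.clog 2 (Nat.card (MulAction.orbitRel.Quotient A X)) +
        C * (realRank fun (x : X) (y : Y) => (F x y ^^ u x ^^ v y) : ℝ) ^ ε := by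
  classical
  obtain ⟨C, hC, horb⟩ := afinal_orbit h hε
  refine ⟨C, ?_⟩
  intro A _ _ X Y _ _ _ _ F u v hF
  have : Fintype A := Fintype.ofFinite A
  have : Fintype (MulAction.orbitRel.Quotient A X) := Fintype.ofFinite _
  set ρ := realRank (fun (x : X) (y : Y) => (F x y ^^ u x ^^ v y)) with hρ
  set c := ⌊C * (ρ : ℝ) ^ ε⌋₊ with hc
  have hmain : CCOn (fun _ _ => True) (fun (x : X) (y : Y) => (F x y ^^ u x ^^ v y))
      (c + Nat.clog 2 (Fintype.card (MulAction.orbitRel.Quotient A X))) := by
    refine sendA (fun x : X => (Quotient.mk (MulAction.orbitRel A X) x :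
      MulAction.orbitRel.Quotient A X)) (Nat.le_pow_clog (by norm_num) _) fun ω => ?_
    -- a representative
    obtain ⟨x0, hx0⟩ : ∃ x0 : X, (Quotient.mk (MulAction.orbitRel A X) x0 :
        MulAction.orbitRel.Quotient A X) = ω := Quotient.exists_rep ω
    have hrep : ∀ x : X, ∃ a : A, (Quotient.mk (MulAction.orbitRel A X) x :
        MulAction.orbitRel.Quotient A X) = ω → a • x0 = x := by
      intro x
      by_cases hx : (Quotient.mk (MulAction.orbitRel A X) x :
        MulAction.orbitRel.Quotient A X) = ω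
      · have h1 : (MulAction.orbitRel A X) x x0 := Quotient.exact (hx.trans hx0.symm)
        rw [MulAction.orbitRel_apply] at h1
        obtain ⟨a, ha⟩ := h1
        exact ⟨a, fun _ => ha⟩
      · exact ⟨1, fun h => absurd h hx⟩
    choose al hal using hrep
    obtain ⟨π, hπ1, hπ2⟩ := horb (Additive A) Y (fun y a => F (Additive.toMul a • x0) y)
      (fun y b => ⟨(Additive.toMul b)⁻¹ • y, fun a => by
        have h1 : Additive.toMul (a + b) • x0 =
            Additive.toMul b • (Additive.toMul a • x0) := by
          rw [smul_smul, toMul_add, mul_comm]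
        show F (Additive.toMul a • x0) ((Additive.toMul b)⁻¹ • y) =
          F (Additive.toMul (a + b) • x0) y
        rw [h1, ← hF (Additive.toMul b) (Additive.toMul a • x0) ((Additive.toMul b)⁻¹ • y),
          smul_inv_smul]⟩)
      (fun a => u (Additive.toMul a • x0)) v
    refine ⟨e1_comap (fun x => Additive.ofMul (al x)) id π, ?_, ?_⟩
    · rw [e1_comap_cost]
      apply Nat.le_floor
      refine hπ2.trans (mul_le_mul_of_nonneg_left ?_ hC)
      apply Real.rpow_le_rpow (Nat.cast_nonneg _) _ hε.le
      exact_mod_cast h2_rank (fun a : Additive A => Additive.toMul a • x0)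
        (fun (x : X) (y : Y) => (F x y ^^ u x ^^ v y))
    · rintro x y ⟨-, hx⟩
      rw [e1_comap_eval, hπ1]
      have h1 : Additive.toMul (Additive.ofMul (al x)) • x0 = x := hal x hx
      simp only [id]
      rw [h1]
  obtain ⟨π, h1, h2⟩ := hmain
  refine ⟨π, fun x y => h2 x y trivial, ?_⟩
  have h3 : (π.cost : ℝ) ≤ ((c + Nat.clog 2 (Fintype.card (MulAction.orbitRel.Quotient A X)) :
      ℕ) : ℝ) := by exact_mod_cast h1
  have h4 : (c : ℝ) ≤ C * (ρ : ℝ) ^ ε := Nat.floor_le (by positivity)
  rw [Nat.card_eq_fintype_card]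
  push_cast at h3
  linarith

end Pool.Agent.XA
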