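import Mathlib
import Pool.Agent.Lib_helper38.XA.Defs
import Pool.Agent.Lib_helper94.XO.Pr
import Pool.Agent.Lib_helper94.XO.F.P2_A1
import Pool.Agent.Lib_helper94.XO.F.P2_C5

/-! XA, block A5: two opposite entries are unlikely -/

set_option autoImplicit false

namespace Pool.Agent.XA

open Finset Filter Pool.Agent.XO

variable {V : Type} [AddCommGroup V] [Fintype V] [DecidableEq V]

theorem a5_two {p : V → ℝ} (hp : IsLaw p) {τ : ℝ} (hτ : ∀ c, p c ≤ τ) :
    pr (fun c : Fin 2 → V => pw p c) (fun c => c 0 + c 1 = 0) ≤ τ := by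
  classical
  have h1 : pr (fun c : Fin 2 → V => pw p c) (fun c => c 0 + c 1 = 0) = ∑ x, p x * p (-x) := by
    unfold pr
    rw [← (finTwoArrowEquiv V).symm.sum_comp, Fintype.sum_prod_type]
    refine Finset.sum_congr rfl fun x _ => ?_
    have : ∀ y : V, (if ((finTwoArrowEquiv V).symm (x, y)) 0 +
        ((finTwoArrowEquiv V).symm (x, y)) 1 = 0
        then pw p ((finTwoArrowEquiv V).symm (x, y)) else 0) =
        if y = -x then p x * p y else 0 := by
      intro y
      have h2 : (x + y = 0) ↔ y = -x := by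
        rw [add_comm, add_eq_zero_iff_eq_neg]
      simp [pw, Fin.prod_univ_two, h2]
    simp_rw [this]
    simp
  rw [h1]
  calc ∑ x, p x * p (-x) ≤ ∑ x, p x * τ :=
        Finset.sum_le_sum fun x _ => mul_le_mul_of_nonneg_left (hτ _) (hp.nonneg x)
    _ = τ := by rw [← Finset.sum_mul, hp.sum_one, one_mul]

/-- two opposite entries are unlikely -/
theorem anti_pr {p : V → ℝ} (hp : IsLaw p) {M : ℕ} {τ : ℝ} (hτ : ∀ c, p c ≤ τ) :
    pr (fun c : Fin M → V => pw p c) (fun c => ∃ a b, a ≠ b ∧ c a + c b = 0) ≤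
      (M : ℝ) ^ 2 * τ := by
  refine (pair_pr hp (M := M) (fun x y : V => x + y = 0)).trans ?_
  exact mul_le_mul_of_nonneg_left (a5_two hp hτ) (by positivity)

end Pool.Agent.XA
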