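import Pool.Agent.Lib_helper94.XO.P1.KL
import Pool.Agent.Lib_helper58.XA.Edge

/-!
# The Kikuchi lemma for finite abelian groups
-/

set_option autoImplicit false

namespace Pool.Agent.XA

open Finset Pool.Agent.XO Pool.Agent.Lib_helper94.XO.P1

section Mat

variable {V : Type} [AddCommGroup V] [Fintype V] [DecidableEq V] {w N : ℕ}

omit [Fintype V] [DecidableEq V] in
theorem ka_sum_ow (U : Fin w × Fin N → V) (c : Fin w → Fin N)
    (l r : Fin w → V) (g : V) (hg : ∑ t, r t = ∑ t, l t + g) :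
    ∑ m, kl_ow U c r m = ∑ m, kl_ow U c l m + g := by
  have h1 : ∑ m, kl_ow U c r m - ∑ m, kl_ow U c l m = ∑ t, (r t - l t) := by
    rw [← Finset.sum_sub_distrib, Fintype.sum_prod_type]
    apply Finset.sum_congr rfl
    intro t _
    have : ∀ k : Fin N, kl_ow U c r (t, k) - kl_ow U c l (t, k) =
        if k = c t then r t - l t else 0 := by
      intro k
      simp only [kl_ow]
      split_ifs
      · rfl
      · exact sub_self _
    rw [Finset.sum_congr rfl (fun k _ => this k), Finset.sum_ite_eq', if_pos (Finset.mem_univ _)]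
  rw [Finset.sum_sub_distrib, hg, add_sub_cancel_left] at h1
  rw [← h1]
  abel

/-- one colour: a large amount of mass is flipped by `g` -/
theorem ka_colour (p : V → ℝ) (hp : ∀ a, 0 ≤ p a)
    (hp1 : ∑ a, p a = 1) (g : V) (J : (Fin w → V) → (Fin w → V) → ℝ)
    (hJ0 : ∀ l r, 0 ≤ J l r) (hJ1 : ∑ l, ∑ r, J l r = 1)
    (hJg : ∀ l r, J l r ≠ 0 → ∑ t, r t = ∑ t, l t + g) {τ : ℝ} (hτ : 0 ≤ τ)
    (hl : ∀ l, ∑ r, J l r ≤ τ * pw p l) (hr : ∀ r, ∑ l, J l r ≤ τ * pw p r)
    (hN : 0 < N) (hNw : (w : ℝ) * τ ≤ N) :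
    3 / 4 ≤ 16 * ∑ a : V, min (∑ U : Fin w × Fin N → V with ∑ m, U m = a, kl_PP p U)
      (∑ U : Fin w × Fin N → V with ∑ m, U m = a + g, kl_PP p U) := by
  have hN' : (0 : ℝ) < N := by exact_mod_cast hN
  have hNw' : (0 : ℝ) < (N : ℝ) ^ w := by positivity
  set Jl : (Fin w → V) → ℝ := fun l => ∑ r, J l r with hJl
  set Jr : (Fin w → V) → ℝ := fun r => ∑ l, J l r with hJr
  have hJl0 : ∀ l, 0 ≤ Jl l := fun l => Finset.sum_nonneg fun r _ => hJ0 l r
  have hJr0 : ∀ r, 0 ≤ Jr r := fun r => Finset.sum_nonneg fun l _ => hJ0 l r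
  have hJl1 : ∑ l, Jl l = 1 := hJ1
  have hJr1 : ∑ r, Jr r = 1 := by rw [hJr, Finset.sum_comm]; exact hJ1
  set dl : (Fin w → V) → ℝ := fun x => Jl x / pw p x with hdl
  set dr : (Fin w → V) → ℝ := fun x => Jr x / pw p x with hdr
  have hpw := fun x : Fin w → V => kl_pw_nonneg p hp x
  have key : ∀ (K : (Fin w → V) → ℝ), (∀ x, 0 ≤ K x) → (∀ x, K x ≤ τ * pw p x) →
      (∀ x, K x = K x / pw p x * pw p x) ∧ (∀ x, 0 ≤ K x / pw p x) ∧
        (∀ x, K x / pw p x ≤ τ) := by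
    intro K hK0 hK
    refine ⟨fun x => ?_, fun x => div_nonneg (hK0 x) (hpw x), fun x => ?_⟩
    · rcases (hpw x).eq_or_lt with h | h
      · have : K x ≤ 0 := by have := hK x; rwa [← h, mul_zero] at this
        rw [le_antisymm this (hK0 x), zero_div, zero_mul]
      · field_simp
    · rcases (hpw x).eq_or_lt with h | h
      · rw [← h, div_zero]; exact hτ
      · rw [div_le_iff₀ h]; exact hK x
  obtain ⟨l1, l2, l3⟩ := key Jl hJl0 hl
  obtain ⟨r1, r2, r3⟩ := key Jr hJr0 hr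
  have sl := kl_second (N := N) p hp hp1 Jl dl l1 l2 l3 hJl1 hN hNw
  have sr := kl_second (N := N) p hp hp1 Jr dr r1 r2 r3 hJr1 hN hNw
  have hW0 : ∀ (ρ : (Fin w → V) → ℝ), (∀ x, 0 ≤ ρ x) → ∀ U, 0 ≤ kl_W (N := N) ρ U :=
    fun ρ hρ U => mul_nonneg (by positivity) (Finset.sum_nonneg fun c _ => hρ _)
  -- the joint functional
  have hMl : ∀ F : (Fin w × Fin N → V) → ℝ, kl_MM (N := N) p J (fun U _ => F U) =
      ∑ U, kl_PP p U * kl_W (N := N) dl U * F U := fun F => kl_MM_left p hp1 J dl l1 F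
  have hMr : ∀ F : (Fin w × Fin N → V) → ℝ, kl_MM (N := N) p J (fun _ U => F U) =
      ∑ U, kl_PP p U * kl_W (N := N) dr U * F U := fun F => kl_MM_right p hp1 J dr r1 F
  have hmono := kl_MM_mono (N := N) p hp J hJ0
  have hadd := kl_MM_add (N := N) p J
  classical
  set GG : (Fin w × Fin N → V) → (Fin w × Fin N → V) → ℝ := fun U U' =>
    if kl_W (N := N) dl U ≤ 16 ∧ kl_W (N := N) dr U' ≤ 16 then 1 else 0 with hGG
  -- the total mass of the good part
  have hone : kl_MM (N := N) p J (fun _ _ => 1) = 1 := by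
    have := hMl (fun _ => 1)
    rw [this]
    have h3 := kl_law (N := N) p hp1 Jl dl l1 (fun _ => 1)
    rw [← h3]
    simp only [mul_one, kl_sum_PP p hp1, hJl1, Finset.sum_const, nsmul_eq_mul,
      Finset.card_univ, Fintype.card_fun, Fintype.card_fin]
    push_cast
    field_simp
  have htail : ∀ (ρ : (Fin w → V) → ℝ), (∀ x, 0 ≤ ρ x) →
      ∑ U : Fin w × Fin N → V, kl_PP p U * kl_W (N := N) ρ U * kl_W (N := N) ρ U ≤ 2 →
      ∑ U : Fin w × Fin N → V, kl_PP p U * kl_W (N := N) ρ U *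
        (if kl_W (N := N) ρ U ≤ 16 then 0 else 1) ≤ 1 / 8 := by
    intro ρ hρ h
    have h4 : ∑ U : Fin w × Fin N → V, kl_PP p U * kl_W (N := N) ρ U *
        (if kl_W (N := N) ρ U ≤ 16 then 0 else 1) ≤
        ∑ U : Fin w × Fin N → V, (kl_PP p U * kl_W (N := N) ρ U * kl_W (N := N) ρ U) / 16 := by
      apply Finset.sum_le_sum
      intro U _
      have h5 : 0 ≤ kl_PP p U * kl_W (N := N) ρ U :=
        mul_nonneg (kl_PP_nonneg p hp U) (hW0 ρ hρ U)
      have h6 := hW0 ρ hρ U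
      rw [mul_div_assoc]
      apply mul_le_mul_of_nonneg_left _ h5
      split_ifs with h7
      · positivity
      · push Not at h7
        rw [le_div_iff₀ (by norm_num)]
        linarith
    rw [← Finset.sum_div] at h4
    linarith
  have hgood : 3 / 4 ≤ kl_MM (N := N) p J GG := by
    have h3 : kl_MM (N := N) p J (fun _ _ => 1) ≤ kl_MM (N := N) p J (fun U U' => GG U U' +
        ((if kl_W (N := N) dl U ≤ 16 then 0 else 1) +
          (if kl_W (N := N) dr U' ≤ 16 then 0 else 1))) := by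
      apply hmono
      intro c l r U _
      simp only [hGG]
      by_cases h4 : kl_W (N := N) dl (kl_ow U c l) ≤ 16 <;>
        by_cases h5 : kl_W (N := N) dr (kl_ow U c r) ≤ 16 <;> simp [h4, h5]
    rw [hadd, hone, hadd (fun U _ => if kl_W (N := N) dl U ≤ 16 then 0 else 1)
      (fun _ U' => if kl_W (N := N) dr U' ≤ 16 then 0 else 1), hMl, hMr] at h3
    have h6 := htail dl l2 sl
    have h7 := htail dr r2 sr
    linarith
  -- split according to the sum
  have hsplit : kl_MM (N := N) p J GG = ∑ a, kl_MM (N := N) p J (fun U U' => if ∑ m, U m = a then GG U U' else 0) := by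
    rw [← kl_MM_sum]
    congr 1
    ext U U'
    rw [Finset.sum_ite_eq, if_pos (Finset.mem_univ _)]
  have hbound : ∀ (ρ : (Fin w → V) → ℝ), (∀ x, 0 ≤ ρ x) → ∀ b : V,
      ∑ U : Fin w × Fin N → V, kl_PP p U * kl_W (N := N) ρ U *
        (if ∑ m, U m = b ∧ kl_W (N := N) ρ U ≤ 16 then 1 else 0) ≤
      16 * ∑ U : Fin w × Fin N → V with ∑ m, U m = b, kl_PP p U := by
    intro ρ hρ b
    rw [Finset.mul_sum, Finset.sum_filter]
    apply Finset.sum_le_sum
    intro U _
    have h5 := kl_PP_nonneg p hp U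
    by_cases h8 : ∑ m, U m = b
    · rw [if_pos h8]
      by_cases h9 : kl_W (N := N) ρ U ≤ 16
      · rw [if_pos ⟨h8, h9⟩, mul_one, mul_comm]
        exact mul_le_mul_of_nonneg_right h9 h5
      · rw [if_neg (fun h => h9 h.2), mul_zero]
        positivity
    · rw [if_neg h8, if_neg (fun h => h8 h.1), mul_zero]
  have hmin : ∀ a, kl_MM (N := N) p J (fun U U' => if ∑ m, U m = a then GG U U' else 0) ≤
      16 * min (∑ U : Fin w × Fin N → V with ∑ m, U m = a, kl_PP p U)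
      (∑ U : Fin w × Fin N → V with ∑ m, U m = a + g, kl_PP p U) := by
    intro a
    rw [mul_min_of_nonneg _ _ (by norm_num)]
    apply le_min
    · have h3 : kl_MM (N := N) p J (fun U U' => if ∑ m, U m = a then GG U U' else 0) ≤
          kl_MM (N := N) p J (fun U _ => if ∑ m, U m = a ∧ kl_W (N := N) dl U ≤ 16 then 1 else 0) := by
        apply hmono
        intro c l r U _
        simp only [hGG]
        by_cases h4 : kl_W (N := N) dl (kl_ow U c l) ≤ 16 <;>
          by_cases h5 : kl_W (N := N) dr (kl_ow U c r) ≤ 16 <;>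
          by_cases h6 : ∑ m, kl_ow U c l m = a <;> simp [h4, h5, h6]
      rw [hMl] at h3
      exact h3.trans (hbound dl l2 a)
    · have h3 : kl_MM (N := N) p J (fun U U' => if ∑ m, U m = a then GG U U' else 0) ≤
          kl_MM (N := N) p J (fun _ U' => if ∑ m, U' m = a + g ∧ kl_W (N := N) dr U' ≤ 16 then 1 else 0) := by
        apply hmono
        intro c l r U hJ
        have hs := ka_sum_ow U c l r g (hJg l r hJ)
        simp only [hGG]
        rw [hs]
        by_cases h4 : kl_W (N := N) dl (kl_ow U c l) ≤ 16 <;>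
          by_cases h5 : kl_W (N := N) dr (kl_ow U c r) ≤ 16 <;>
          by_cases h6 : ∑ m, kl_ow U c l m = a <;> simp [h4, h5, h6]
      rw [hMr] at h3
      exact h3.trans (hbound dr r2 (a + g))
  calc 3 / 4 ≤ kl_MM (N := N) p J GG := hgood
    _ = ∑ a, kl_MM (N := N) p J (fun U U' => if ∑ m, U m = a then GG U U' else 0) := hsplit
    _ ≤ _ := by
        rw [Finset.mul_sum]
        exact Finset.sum_le_sum fun a _ => hmin a

end Mat

/-- **I.3, the Kikuchi lemma, abelian groups.** -/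
theorem kikuchi {V : Type} [AddCommGroup V] [Fintype V] [DecidableEq V]
    (p : V → ℝ) (hp : IsLaw p) {D w : ℕ} (hw : 1 ≤ w) (g : Fin D → V)
    (hg : ∀ i : Fin D, g i ∉ chn g i) {τ : ℝ} (hτ : 1 ≤ τ)
    (J : Fin D → (Fin w → V) → (Fin w → V) → ℝ) (hJ0 : ∀ i l r, 0 ≤ J i l r)
    (hJ1 : ∀ i, ∑ l, ∑ r, J i l r = 1)
    (hJg : ∀ i l r, J i l r ≠ 0 → ∑ t, r t = ∑ t, l t + g i)
    (hl : ∀ i l, ∑ r, J i l r ≤ τ * pw p l) (hr : ∀ i r, ∑ l, J i l r ≤ τ * pw p r) :
    (D : ℝ) ≤ 64 * (w : ℝ) ^ 2 * τ * (ent p / Real.log 2) := by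
  have hw' : (1 : ℝ) ≤ w := by exact_mod_cast hw
  set N : ℕ := ⌈(w : ℝ) * τ⌉₊ with hNdef
  have hwt : 1 ≤ (w : ℝ) * τ := by nlinarith
  have hN1 : (w : ℝ) * τ ≤ N := Nat.le_ceil _
  have hN2 : (N : ℝ) ≤ 2 * (w * τ) := by
    have := (Nat.ceil_lt_add_one (show 0 ≤ (w : ℝ) * τ by linarith)).le
    linarith
  have hN0 : 0 < N := by
    have : (0 : ℝ) < N := by linarith
    exact_mod_cast this
  set Q : V → ℝ := fun a => ∑ U : Fin w × Fin N → V with ∑ m, U m = a, kl_PP p U with hQ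
  have hQ0 : ∀ a, 0 ≤ Q a := fun a =>
    Finset.sum_nonneg fun U _ => kl_PP_nonneg p hp.nonneg U
  have hQ1 : ∑ a, Q a = 1 := by
    rw [hQ, Finset.sum_fiberwise]
    exact kl_sum_PP p hp.sum_one
  have hcol : ∀ i, 3 / 4 ≤ 16 * ∑ a, min (Q a) (Q (a + g i)) := fun i =>
    ka_colour p hp.nonneg hp.sum_one (g i) (J i) (hJ0 i) (hJ1 i) (hJg i)
      (by linarith) (hl i) (hr i) hN0 hN1
  have hedge := chain_overlap hQ0 hQ1 g hg
  have hent : ∑ a, Real.negMulLog (Q a) ≤ (w * N : ℝ) * ent p := by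
    have h3 := ent_push_le (kl_PP (w := w) (N := N) p)
      (kl_PP_nonneg p hp.nonneg) (fun U => ∑ m, U m)
    have h4 := ent_prod (I := Fin w × Fin N) p hp.sum_one
    refine h3.trans (le_of_eq ?_)
    unfold kl_PP
    rw [h4]
    unfold ent
    rw [Fintype.card_prod, Fintype.card_fin, Fintype.card_fin]
    push_cast
    ring
  have hlog : 0 < Real.log 2 := Real.log_pos (by norm_num)
  have hD : (D : ℝ) * (3 / 4) ≤ 16 * ∑ i, ∑ a, min (Q a) (Q (a + g i)) := by
    calc (D : ℝ) * (3 / 4) = ∑ _i : Fin D, (3 / 4 : ℝ) := by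
          rw [Finset.sum_const, nsmul_eq_mul, Finset.card_univ, Fintype.card_fin]
      _ ≤ ∑ i, 16 * ∑ a, min (Q a) (Q (a + g i)) := Finset.sum_le_sum fun i _ => hcol i
      _ = _ := by rw [← Finset.mul_sum]
  have hE0 : 0 ≤ ent p := by
    unfold ent
    apply Finset.sum_nonneg
    intro a _
    apply Real.negMulLog_nonneg (hp.nonneg a)
    rw [← hp.sum_one]
    exact Finset.single_le_sum (fun x _ => hp.nonneg x) (Finset.mem_univ a)
  have h7 : (w * N : ℝ) * ent p ≤ (w * (2 * (w * τ))) * ent p := by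
    apply mul_le_mul_of_nonneg_right _ hE0
    apply mul_le_mul_of_nonneg_left hN2 (by linarith)
  have h6 : (D : ℝ) * (3 / 4) ≤ 64 * ((w : ℝ) ^ 2 * τ * ent p) := by
    calc (D : ℝ) * (3 / 4) ≤ 16 * ∑ i, ∑ a, min (Q a) (Q (a + g i)) := hD
      _ ≤ 16 * (2 * ∑ a, Real.negMulLog (Q a)) := by linarith
      _ ≤ 16 * (2 * ((w * (2 * (w * τ))) * ent p)) := by linarith
      _ = 64 * ((w : ℝ) ^ 2 * τ * ent p) := by ring
  have h9 : 0 ≤ (w : ℝ) ^ 2 * τ * ent p := by positivity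
  have hl2 : Real.log 2 ≤ 3 / 4 := by
    have := Real.log_two_lt_d9
    linarith
  have h8 : (D : ℝ) * Real.log 2 ≤ 64 * ((w : ℝ) ^ 2 * τ * ent p) := by
    have h10 : (D : ℝ) * Real.log 2 ≤ (D : ℝ) * (3 / 4) :=
      mul_le_mul_of_nonneg_left hl2 (Nat.cast_nonneg D)
    linarith
  rw [show 64 * (w : ℝ) ^ 2 * τ * (ent p / Real.log 2) =
    (64 * ((w : ℝ) ^ 2 * τ * ent p)) / Real.log 2 by ring, le_div_iff₀ hlog]
  exact h8

end Pool.Agent.XA
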