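import Pool.Agent.Lib_helper94.XO.Pr
import Pool.Agent.Lib_helper94.XO.P1.Copy
import Pool.Agent.Lib_helper94.XO.P1.DL
import Pool.Agent.Lib_helper58.XA.KL
import Pool.Agent.Lib_helper38.XA.Defs

/-!
# Part I, I.6 and I.7 for finite abelian groups: the determination lemma
-/

set_option autoImplicit false

namespace Pool.Agent.XA

open Finset Pool.Agent.XO Pool.Agent.Lib_helper94.XO.P1

section Chain

variable {A : Type} [AddCommGroup A]

theorem chn_snoc {D : ℕ} (g : Fin D → A) (v : A) {k : ℕ} (hk : k ≤ D) :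
    chn (Fin.snoc g v : Fin (D + 1) → A) k = chn g k := by
  unfold chn
  congr 1
  ext x
  constructor
  · rintro ⟨i, hi, rfl⟩
    have hi' : (i : ℕ) < D := by omega
    refine ⟨⟨i, hi'⟩, hi, ?_⟩
    exact Fin.snoc_castSucc (α := fun _ => A) v g ⟨(i : ℕ), hi'⟩
  · rintro ⟨i, hi, rfl⟩
    exact ⟨Fin.castSucc i, hi, (Fin.snoc_castSucc (α := fun _ => A) v g i).symm⟩

/-- a maximal chain of elements of `S` generates `S` -/
theorem exists_chain (S : Set A) (B : ℕ)
    (hB : ∀ (D : ℕ) (g : Fin D → A), (∀ i, g i ∈ S) → (∀ i : Fin D, g i ∉ chn g i) → D ≤ B) :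
    ∃ (D : ℕ) (g : Fin D → A), (∀ i, g i ∈ S) ∧ (∀ i : Fin D, g i ∉ chn g i) ∧
      ∀ v ∈ S, v ∈ chn g D := by
  by_contra hcon
  push Not at hcon
  have key : ∀ n : ℕ, ∃ g : Fin n → A, (∀ i, g i ∈ S) ∧ ∀ i : Fin n, g i ∉ chn g i := by
    intro n
    induction n with
    | zero => exact ⟨Fin.elim0, fun i => i.elim0, fun i => i.elim0⟩
    | succ n ih =>
      obtain ⟨g, h1, h2⟩ := ih
      obtain ⟨v, hv, hv'⟩ := hcon n g h1 h2
      refine ⟨Fin.snoc g v, ?_, ?_⟩
      · intro i
        refine Fin.lastCases ?_ (fun j => ?_) i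
        · rw [Fin.snoc_last]
          exact hv
        · rw [Fin.snoc_castSucc]
          exact h1 j
      · intro i
        refine Fin.lastCases ?_ (fun j => ?_) i
        · rw [Fin.snoc_last, Fin.val_last, chn_snoc g v le_rfl]
          exact hv'
        · rw [Fin.snoc_castSucc, Fin.val_castSucc, chn_snoc g v (by omega)]
          exact h2 j
  obtain ⟨g, h1, h2⟩ := key (B + 1)
  have := hB (B + 1) g h1 h2
  omega

end Chain

section DL

variable {V : Type} [AddCommGroup V] [Fintype V] [DecidableEq V]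
variable {Ω β γ : Type} [Fintype Ω] [Fintype β] [Fintype γ] {w : ℕ}

/-- **I.6** -/
theorem dl_space {P : Ω → ℝ} (hP : IsLaw P) (p : V → ℝ) (hp : IsLaw p) (hw : 1 ≤ w)
    (Y : Ω → V) (X : Ω → Fin w → V) (W : Ω → β) (B : Ω → γ)
    (hB : ∃ φ : β → γ, ∀ ω, B ω = φ (W ω)) (ψ : β → V)
    (hψ : ∀ ω, P ω ≠ 0 → Y ω + ∑ i, X ω i = ψ (W ω)) (hX : lw P X = pw p)
    (hind : ∀ x y b, lw P (fun ω => (X ω, Y ω, B ω)) (x, y, b) =
      pw p x * lw P (fun ω => (Y ω, B ω)) (y, b)) {ι M : ℝ} (hM : 1 ≤ M)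
    (hι : HH P (fun ω => (Y ω, B ω)) - HH P B - (HH P (fun ω => (Y ω, W ω)) - HH P W) ≤ ι)
    {n₀ : ℕ} (hn₀ : ∀ ω ω', P ω ≠ 0 → P ω' ≠ 0 → addOrderOf (Y ω - Y ω') ≤ n₀) :
    ∃ U : AddSubgroup V, Real.log (Nat.card U) ≤
        128 * (w : ℝ) ^ 2 * Real.exp (M * (ι + 1)) * (ent p / Real.log 2) * Real.log n₀ ∧
      pr (cpy P W) (fun x => Y x.1 - Y x.2 ∉ U) ≤ 8 / M := by
  classical
  have hQ := hP.cpy W
  set Q := cpy P W with hQdef
  set A : Ω × Ω → V × V := fun x => (Y x.1, Y x.2) with hA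
  set X1 : Ω × Ω → Fin w → V := fun x => X x.1 with hX1
  set X2 : Ω × Ω → Fin w → V := fun x => X x.2 with hX2
  have hlX1 : lw Q X1 = pw p := by rw [← hX]; exact lw_cpy_fst hP W X
  have hlX2 : lw Q X2 = pw p := by rw [← hX]; exact lw_cpy_snd hP W X
  have hι1 : HH Q A + HH Q X1 - HH Q (fun x => (A x, X1 x)) ≤ ι := by
    have h := dl_info hP Y X W B hB (by rw [hX]; exact hind)
    have h' : HH Q X1 = HH P X := HH_cpy_fst hP W X
    rw [h']
    exact h.trans hι
  have hι2 : HH Q A + HH Q X2 - HH Q (fun x => (A x, X2 x)) ≤ ι := by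
    have e1 : HH Q X2 = HH Q X1 := by unfold HH; rw [hlX1, hlX2]
    have e2 : HH Q (fun x => (A x, X2 x)) = HH Q (fun x => (A x, X1 x)) := by
      rw [← HH_cpy_swap P W (fun x => (A x, X2 x))]
      exact HH_congr hQ _ _ (fun a => ((a.1.2, a.1.1), a.2)) (fun a => ((a.1.2, a.1.1), a.2))
        (fun _ => rfl) (fun _ => rfl)
    rw [e1, e2]
    exact hι1
  have hι0 : 0 ≤ ι := (info_nonneg hQ A X1).trans hι1
  set t := Real.exp (M * (ι + 1)) with ht
  have ht1 : 1 ≤ t := by
    rw [ht]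
    exact Real.one_le_exp (by nlinarith)
  have hT1 := info_tail hQ A X1 hM hι1
  have hT2 := info_tail hQ A X2 hM hι2
  rw [hlX1] at hT1
  rw [hlX2] at hT2
  set E1 : Ω × Ω → Prop := fun x => t * (lw Q A (A x) * pw p (X1 x)) <
      lw Q (fun x => (A x, X1 x)) (A x, X1 x) with hE1
  set E2 : Ω × Ω → Prop := fun x => t * (lw Q A (A x) * pw p (X2 x)) <
      lw Q (fun x => (A x, X2 x)) (A x, X2 x) with hE2
  set b1 : V × V → Prop := fun a => 1 / 4 * lw Q A a ≤ pr Q (fun x => A x = a ∧ E1 x) with hb1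
  set b2 : V × V → Prop := fun a => 1 / 4 * lw Q A a ≤ pr Q (fun x => A x = a ∧ E2 x) with hb2
  have hB1 : pr Q (fun x => b1 (A x)) ≤ 4 / M := by
    have := pr_bad hQ.nonneg A E1
    calc _ ≤ 4 * pr Q E1 := this
      _ ≤ 4 * (1 / M) := by linarith
      _ = 4 / M := by ring
  have hB2 : pr Q (fun x => b2 (A x)) ≤ 4 / M := by
    have := pr_bad hQ.nonneg A E2
    calc _ ≤ 4 * pr Q E2 := this
      _ ≤ 4 * (1 / M) := by linarith
      _ = 4 / M := by ring
  set S : Set V := {v | ∃ a : V × V, lw Q A a ≠ 0 ∧ ¬ b1 a ∧ ¬ b2 a ∧ v = a.1 - a.2} with hS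
  have hbound : ∀ (D : ℕ) (g : Fin D → V), (∀ i, g i ∈ S) → (∀ i : Fin D, g i ∉ chn g i) →
      (D : ℝ) ≤ 128 * (w : ℝ) ^ 2 * t * (ent p / Real.log 2) := by
    intro D g hgS hgli
    have hgood : ∀ i, ∃ a : V × V, lw Q A a ≠ 0 ∧ ¬ b1 a ∧ ¬ b2 a ∧ g i = a.1 - a.2 :=
      fun i => hgS i
    choose a ha0 ha1 ha2 hag using hgood
    set G : Fin D → Ω × Ω → Prop := fun i x => A x = a i ∧ ¬ E1 x ∧ ¬ E2 x
      with hG
    set c : Fin D → ℝ := fun i => pr Q (G i) with hc
    have hq : ∀ i, 0 < lw Q A (a i) := fun i =>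
      lt_of_le_of_ne (lw_nonneg hQ.nonneg A (a i)) (Ne.symm (ha0 i))
    have hchalf : ∀ i, lw Q A (a i) / 2 ≤ c i := by
      intro i
      have h1 : lw Q A (a i) ≤ pr Q (G i) + (pr Q (fun x => A x = a i ∧ E1 x) +
          pr Q (fun x => A x = a i ∧ E2 x)) := by
        calc lw Q A (a i) = pr Q (fun x => A x = a i) := rfl
          _ ≤ pr Q (fun x => G i x ∨ ((A x = a i ∧ E1 x) ∨ (A x = a i ∧ E2 x))) := by
              apply pr_mono hQ.nonneg
              intro x _ hx
              by_cases h1 : E1 x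
              · exact Or.inr (Or.inl ⟨hx, h1⟩)
              · by_cases h2 : E2 x
                · exact Or.inr (Or.inr ⟨hx, h2⟩)
                · exact Or.inl ⟨hx, h1, h2⟩
          _ ≤ _ := (pr_or_le hQ.nonneg _ _).trans
              (add_le_add le_rfl (pr_or_le hQ.nonneg _ _))
      have h2 := ha1 i
      have h3 := ha2 i
      simp only [hb1, hb2, not_le] at h2 h3
      have : c i = pr Q (G i) := rfl
      linarith
    have hc0 : ∀ i, 0 < c i := fun i => by
      have := hchalf i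
      have := hq i
      linarith
    have hkl := kikuchi p hp hw g hgli (τ := 2 * t) (by linarith)
      (fun i l r => (c i)⁻¹ * pr Q (fun x => X1 x = l ∧ (X2 x = r ∧ G i x)))
      (fun i l r => mul_nonneg (inv_nonneg.2 (hc0 i).le) (pr_nonneg hQ.nonneg _))
      (fun i => by
        have : ∀ l, ∑ r, (c i)⁻¹ * pr Q (fun x => X1 x = l ∧ (X2 x = r ∧ G i x)) =
            (c i)⁻¹ * pr Q (fun x => X1 x = l ∧ G i x) := by
          intro l
          rw [← Finset.mul_sum, ← pr_sum_eq Q X2 (fun x => X1 x = l ∧ G i x)]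
          congr 1
          apply Finset.sum_congr rfl
          intro r _
          congr 1
          ext x
          tauto
        rw [Finset.sum_congr rfl (fun l _ => this l), ← Finset.mul_sum, pr_sum_eq Q X1 (G i)]
        exact inv_mul_cancel₀ (hc0 i).ne')
      (fun i l r hne => by
        have h1 : pr Q (fun x => X1 x = l ∧ (X2 x = r ∧ G i x)) ≠ 0 :=
          fun h => hne (by rw [h, mul_zero])
        have h2 : ∃ x, Q x ≠ 0 ∧ X1 x = l ∧ X2 x = r ∧ G i x := by
          by_contra hcon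
          push Not at hcon
          apply h1
          unfold pr
          apply Finset.sum_eq_zero
          intro x _
          by_cases hx : Q x = 0
          · rw [hx]; simp
          · rw [if_neg]
            rintro ⟨h3, h4, h5⟩
            exact hcon x hx h3 h4 h5
        obtain ⟨x, hx, hl, hr, hAx, -, -⟩ := h2
        have hW : W x.1 = W x.2 := cpy_ae hx
        obtain ⟨hx1, hx2⟩ := cpy_ne hx
        have e1 := hψ x.1 hx1
        have e2 := hψ x.2 hx2
        rw [hag i, ← hAx, ← hl, ← hr]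
        simp only [hA, hX1, hX2]
        rw [← hW, ← e1] at e2
        -- e2 : Y x.2 + ∑ X x.2 = Y x.1 + ∑ X x.1
        show ∑ t, X x.2 t = ∑ t, X x.1 t + (Y x.1 - Y x.2)
        calc ∑ t, X x.2 t = (Y x.2 + ∑ t, X x.2 t) - Y x.2 := by abel
          _ = (Y x.1 + ∑ t, X x.1 t) - Y x.2 := by rw [e2]
          _ = _ := by abel)
      (fun i l => by
        have h0 : ∑ r, (c i)⁻¹ * pr Q (fun x => X1 x = l ∧ (X2 x = r ∧ G i x)) =
            (c i)⁻¹ * pr Q (fun x => X1 x = l ∧ G i x) := by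
          rw [← Finset.mul_sum, ← pr_sum_eq Q X2 (fun x => X1 x = l ∧ G i x)]
          congr 1
          apply Finset.sum_congr rfl
          intro r _
          congr 1
          ext x
          tauto
        rw [h0]
        have h1 : pr Q (fun x => X1 x = l ∧ G i x) ≤ t * (lw Q A (a i) * pw p l) := by
          by_cases hex : ∃ x, X1 x = l ∧ G i x
          · obtain ⟨x, hxl, hxa, hx1, -⟩ := hex
            have h3 : lw Q (fun x => (A x, X1 x)) (a i, l) ≤ t * (lw Q A (a i) * pw p l) := by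
              have := not_lt.1 hx1
              rw [hxa, hxl] at this
              exact this
            refine le_trans ?_ h3
            apply pr_mono hQ.nonneg
            rintro y - ⟨hy1, hy2, -⟩
            show (A y, X1 y) = (a i, l)
            rw [hy1, hy2]
          · have : pr Q (fun x => X1 x = l ∧ G i x) = 0 := by
              unfold pr
              apply Finset.sum_eq_zero
              intro x _
              rw [if_neg (fun h => hex ⟨x, h⟩)]
            rw [this]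
            have := kl_pw_nonneg p hp.nonneg l
            have := (hq i).le
            positivity
        have h2 := hchalf i
        have h4 : 0 ≤ pw p l := kl_pw_nonneg p hp.nonneg l
        calc (c i)⁻¹ * pr Q (fun x => X1 x = l ∧ G i x)
            ≤ (c i)⁻¹ * (t * (lw Q A (a i) * pw p l)) :=
              mul_le_mul_of_nonneg_left h1 (inv_nonneg.2 (hc0 i).le)
          _ ≤ (c i)⁻¹ * (t * ((2 * c i) * pw p l)) := by
              apply mul_le_mul_of_nonneg_left _ (inv_nonneg.2 (hc0 i).le)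
              apply mul_le_mul_of_nonneg_left _ (by linarith)
              apply mul_le_mul_of_nonneg_right _ h4
              linarith
          _ = 2 * t * pw p l := by
              have := (hc0 i).ne'
              field_simp)
      (fun i r => by
        have h0 : ∑ l, (c i)⁻¹ * pr Q (fun x => X1 x = l ∧ (X2 x = r ∧ G i x)) =
            (c i)⁻¹ * pr Q (fun x => X2 x = r ∧ G i x) := by
          rw [← Finset.mul_sum, ← pr_sum_eq Q X1 (fun x => X2 x = r ∧ G i x)]
        rw [h0]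
        have h1 : pr Q (fun x => X2 x = r ∧ G i x) ≤ t * (lw Q A (a i) * pw p r) := by
          by_cases hex : ∃ x, X2 x = r ∧ G i x
          · obtain ⟨x, hxl, hxa, -, hx1⟩ := hex
            have h3 : lw Q (fun x => (A x, X2 x)) (a i, r) ≤ t * (lw Q A (a i) * pw p r) := by
              have := not_lt.1 hx1
              rw [hxa, hxl] at this
              exact this
            refine le_trans ?_ h3
            apply pr_mono hQ.nonneg
            rintro y - ⟨hy1, hy2, -⟩
            show (A y, X2 y) = (a i, r)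
            rw [hy1, hy2]
          · have : pr Q (fun x => X2 x = r ∧ G i x) = 0 := by
              unfold pr
              apply Finset.sum_eq_zero
              intro x _
              rw [if_neg (fun h => hex ⟨x, h⟩)]
            rw [this]
            have := kl_pw_nonneg p hp.nonneg r
            have := (hq i).le
            positivity
        have h2 := hchalf i
        have h4 : 0 ≤ pw p r := kl_pw_nonneg p hp.nonneg r
        calc (c i)⁻¹ * pr Q (fun x => X2 x = r ∧ G i x)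
            ≤ (c i)⁻¹ * (t * (lw Q A (a i) * pw p r)) :=
              mul_le_mul_of_nonneg_left h1 (inv_nonneg.2 (hc0 i).le)
          _ ≤ (c i)⁻¹ * (t * ((2 * c i) * pw p r)) := by
              apply mul_le_mul_of_nonneg_left _ (inv_nonneg.2 (hc0 i).le)
              apply mul_le_mul_of_nonneg_left _ (by linarith)
              apply mul_le_mul_of_nonneg_right _ h4
              linarith
          _ = 2 * t * pw p r := by
              have := (hc0 i).ne'
              field_simp)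
    calc (D : ℝ) ≤ 64 * (w : ℝ) ^ 2 * (2 * t) * (ent p / Real.log 2) := hkl
      _ = 128 * (w : ℝ) ^ 2 * t * (ent p / Real.log 2) := by ring
  obtain ⟨D, g, hgS, hgli, hgen⟩ := exists_chain S
    ⌊128 * (w : ℝ) ^ 2 * t * (ent p / Real.log 2)⌋₊
    (fun D g h1 h2 => Nat.le_floor (hbound D g h1 h2))
  refine ⟨chn g D, ?_, ?_⟩
  · have hD := hbound D g hgS hgli
    have hex : ∃ ω, P ω ≠ 0 := by
      by_contra hcon
      push Not at hcon
      have := hP.sum_one
      rw [Finset.sum_eq_zero (fun ω _ => hcon ω)] at this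
      exact zero_ne_one this
    obtain ⟨ω₀, hω₀⟩ := hex
    have hn1 : 1 ≤ n₀ := le_trans (addOrderOf_pos _) (hn₀ ω₀ ω₀ hω₀ hω₀)
    have hord : ∀ i, addOrderOf (g i) ≤ n₀ := by
      intro i
      obtain ⟨a, ha, -, -, hga⟩ := hgS i
      have h2 : ∃ x, Q x ≠ 0 ∧ A x = a := by
        by_contra hcon
        push Not at hcon
        apply ha
        unfold lw
        apply Finset.sum_eq_zero
        intro x _
        by_cases hx : Q x = 0
        · rw [hx]; simp
        · rw [if_neg (hcon x hx)]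
      obtain ⟨x, hx, hAx⟩ := h2
      obtain ⟨hx1, hx2⟩ := cpy_ne hx
      rw [hga, ← hAx]
      exact hn₀ _ _ hx1 hx2
    have h1 := card_chn g hord D le_rfl
    have h2 : (Nat.card (chn g D) : ℝ) ≤ (n₀ : ℝ) ^ D := by exact_mod_cast h1
    have h3 : (0 : ℝ) < Nat.card (chn g D) := by
      exact_mod_cast Nat.card_pos
    calc Real.log (Nat.card (chn g D)) ≤ Real.log ((n₀ : ℝ) ^ D) := Real.log_le_log h3 h2
      _ = D * Real.log n₀ := by rw [Real.log_pow]
      _ ≤ _ := mul_le_mul_of_nonneg_right hD (Real.log_nonneg (by exact_mod_cast hn1))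
  · calc pr Q (fun x => Y x.1 - Y x.2 ∉ chn g D)
        ≤ pr Q (fun x => b1 (A x) ∨ b2 (A x)) := by
          apply pr_mono hQ.nonneg
          intro x hx hnot
          by_contra hcon
          push Not at hcon
          apply hnot
          apply hgen
          refine ⟨A x, (lt_of_lt_of_le hx (le_lw hQ.nonneg A x)).ne', hcon.1, hcon.2, rfl⟩
      _ ≤ 4 / M + 4 / M := (pr_or_le hQ.nonneg _ _).trans (add_le_add hB1 hB2)
      _ = 8 / M := by ring

/-- **I.7, first part**: the copy agrees with the original -/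
theorem dl_agree {s κ κ' : ℝ} {P : Ω → ℝ} (hP : IsLaw P) (p : V → ℝ) (hPW : APWorld p s κ κ')
    (hw : 1 ≤ w) (Y : Ω → V) (X : Ω → Fin w → V) (W : Ω → β) (B : Ω → γ)
    (hB : ∃ φ : β → γ, ∀ ω, B ω = φ (W ω)) (ψ : β → V)
    (hψ : ∀ ω, P ω ≠ 0 → Y ω + ∑ i, X ω i = ψ (W ω)) (hX : lw P X = pw p)
    (hind : ∀ x y b, lw P (fun ω => (X ω, Y ω, B ω)) (x, y, b) =
      pw p x * lw P (fun ω => (Y ω, B ω)) (y, b)) (hY : lw P Y = p) {ι M : ℝ} (hM : 1 ≤ M)
    (hι : HH P (fun ω => (Y ω, B ω)) - HH P B - (HH P (fun ω => (Y ω, W ω)) - HH P W) ≤ ι)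
    (h128 : 128 * (w : ℝ) ^ 2 * Real.exp (M * (ι + 1)) * (Real.log s / Real.log 2) *
      (6 * Real.log s) ≤ s ^ κ) :
    pr (cpy P W) (fun x => Y x.1 ≠ Y x.2) ≤ 8 / M + 2 * s ^ (-κ') := by
  classical
  have hpY : ∀ ω, P ω ≠ 0 → p (Y ω) ≠ 0 := fun ω hω => by
    rw [← hY]
    exact (lt_of_lt_of_le (lt_of_le_of_ne (hP.nonneg ω) (Ne.symm hω))
      (le_lw hP.nonneg Y ω)).ne'
  have hs1 : 1 ≤ s := by
    refine le_trans ?_ hPW.card
    have h3 : (univ.filter fun c => p c ≠ 0).Nonempty := by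
      by_contra hne
      rw [Finset.not_nonempty_iff_eq_empty] at hne
      have hz : ∀ c, p c = 0 := fun c => by
        by_contra hc
        have : c ∈ (univ.filter fun c => p c ≠ 0) := by
          rw [Finset.mem_filter]; exact ⟨Finset.mem_univ _, hc⟩
        rw [hne] at this
        exact absurd this (Finset.notMem_empty _)
      have := hPW.law.sum_one
      rw [Finset.sum_eq_zero (fun c _ => hz c)] at this
      exact zero_ne_one this
    exact_mod_cast Finset.card_pos.2 h3
  have hs0 : 0 < s := by linarith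
  have hn : ∀ ω ω', P ω ≠ 0 → P ω' ≠ 0 → addOrderOf (Y ω - Y ω') ≤ ⌊s ^ 6⌋₊ := by
    intro ω ω' h1 h2
    apply Nat.le_floor
    have h3 : addOrderOf (Y ω - Y ω') ≤ addOrderOf (Y ω) * addOrderOf (Y ω') := by
      rw [sub_eq_add_neg]
      have h4 := (AddCommute.all (Y ω) (-Y ω')).addOrderOf_add_dvd_mul_addOrderOf
      rw [addOrderOf_neg] at h4
      exact Nat.le_of_dvd (Nat.mul_pos (addOrderOf_pos _) (addOrderOf_pos _)) h4
    calc ((addOrderOf (Y ω - Y ω') : ℕ) : ℝ) ≤
          ((addOrderOf (Y ω) * addOrderOf (Y ω') : ℕ) : ℝ) := by exact_mod_cast h3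
      _ = (addOrderOf (Y ω) : ℝ) * addOrderOf (Y ω') := by push_cast; ring
      _ ≤ s ^ 3 * s ^ 3 := mul_le_mul (hPW.ord _ (hpY ω h1)) (hPW.ord _ (hpY ω' h2))
          (Nat.cast_nonneg _) (by positivity)
      _ = s ^ 6 := by ring
  obtain ⟨U, hU, hpr⟩ := dl_space hP p hPW.law hw Y X W B hB ψ hψ hX hind hM hι hn
  have hent : ent p ≤ Real.log s := by
    have h1 : HH P Y ≤ Real.log (univ.filter fun c => p c ≠ 0).card := by
      apply HH_le_log hP
      intro ω hω
      rw [Finset.mem_filter]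
      refine ⟨Finset.mem_univ _, ?_⟩
      rw [← hY]
      exact (lt_of_lt_of_le (lt_of_le_of_ne (hP.nonneg ω) (Ne.symm hω))
        (le_lw hP.nonneg Y ω)).ne'
    have h2 : HH P Y = ent p := by unfold HH; rw [hY]
    rw [← h2]
    refine h1.trans (Real.log_le_log ?_ hPW.card)
    have h3 : (univ.filter fun c => p c ≠ 0).Nonempty := by
      by_contra hne
      rw [Finset.not_nonempty_iff_eq_empty] at hne
      have hz : ∀ c, p c = 0 := fun c => by
        by_contra hc
        have : c ∈ (univ.filter fun c => p c ≠ 0) := by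
          rw [Finset.mem_filter]; exact ⟨Finset.mem_univ _, hc⟩
        rw [hne] at this
        exact absurd this (Finset.notMem_empty _)
      have := hPW.law.sum_one
      rw [Finset.sum_eq_zero (fun c _ => hz c)] at this
      exact zero_ne_one this
    exact_mod_cast Finset.card_pos.2 h3
  have hlog2 : 0 < Real.log 2 := Real.log_pos (by norm_num)
  have hlogs : 0 ≤ Real.log s := Real.log_nonneg hs1
  have hlogn : Real.log (⌊s ^ 6⌋₊ : ℕ) ≤ 6 * Real.log s := by
    have h1 : 1 ≤ ⌊s ^ 6⌋₊ := Nat.le_floor (by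
      have : (1 : ℝ) ≤ s ^ 6 := one_le_pow₀ hs1
      exact_mod_cast this)
    have h2 : (0 : ℝ) < (⌊s ^ 6⌋₊ : ℕ) := by exact_mod_cast h1
    calc Real.log (⌊s ^ 6⌋₊ : ℕ) ≤ Real.log (s ^ 6) :=
          Real.log_le_log h2 (Nat.floor_le (by positivity))
      _ = 6 * Real.log s := by rw [Real.log_pow]; norm_num
  have hUk : Real.log (Nat.card U) ≤ s ^ κ := by
    refine hU.trans (le_trans ?_ h128)
    apply mul_le_mul _ hlogn _ (by positivity)
    · apply mul_le_mul_of_nonneg_left _ (by positivity)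
      gcongr
    · apply Real.log_nonneg
      exact_mod_cast Nat.le_floor (by
        have : (1 : ℝ) ≤ s ^ 6 := one_le_pow₀ hs1
        exact_mod_cast this)
  obtain ⟨Lt, hLt, hLs⟩ := hPW.spread U hUk
  have hQ := hP.cpy W
  have hmem1 : pr (cpy P W) (fun x => Y x.1 ∈ Lt) ≤ s ^ (-κ') := by
    refine le_trans (le_of_eq ?_) hLs
    have h1 := sum_lw_mul (cpy P W) (fun x : Ω × Ω => Y x.1) (fun a => if a ∈ Lt then 1 else 0)
    rw [lw_cpy_fst hP W Y, hY] at h1
    simp only [mul_ite, mul_one, mul_zero] at h1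
    rw [Finset.sum_ite_mem, Finset.univ_inter] at h1
    rw [h1]
    unfold pr
    exact Finset.sum_congr rfl fun x _ => by congr
  have hmem2 : pr (cpy P W) (fun x => Y x.2 ∈ Lt) ≤ s ^ (-κ') := by
    refine le_trans (le_of_eq ?_) hLs
    have h1 := sum_lw_mul (cpy P W) (fun x : Ω × Ω => Y x.2) (fun a => if a ∈ Lt then 1 else 0)
    rw [lw_cpy_snd hP W Y, hY] at h1
    simp only [mul_ite, mul_one, mul_zero] at h1
    rw [Finset.sum_ite_mem, Finset.univ_inter] at h1
    rw [h1]
    unfold pr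
    exact Finset.sum_congr rfl fun x _ => by congr
  calc pr (cpy P W) (fun x => Y x.1 ≠ Y x.2)
      ≤ pr (cpy P W) (fun x => Y x.1 - Y x.2 ∉ U ∨ (Y x.1 ∈ Lt ∨ Y x.2 ∈ Lt)) := by
        apply pr_mono hQ.nonneg
        intro x hx hne
        by_cases hU' : Y x.1 - Y x.2 ∈ U
        · right
          obtain ⟨h1, h2⟩ := cpy_ne hx.ne'
          have h3 : ∀ ω, P ω ≠ 0 → p (Y ω) ≠ 0 := fun ω hω => by
            rw [← hY]
            exact (lt_of_lt_of_le (lt_of_le_of_ne (hP.nonneg ω) (Ne.symm hω))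
              (le_lw hP.nonneg Y ω)).ne'
          exact hLt _ _ (h3 _ h1) (h3 _ h2) hne hU'
        · exact Or.inl hU'
    _ ≤ 8 / M + (s ^ (-κ') + s ^ (-κ')) :=
        (pr_or_le hQ.nonneg _ _).trans (add_le_add hpr
          ((pr_or_le hQ.nonneg _ _).trans (add_le_add hmem1 hmem2)))
    _ = 8 / M + 2 * s ^ (-κ') := by ring

/-- **I.7** -/
theorem dl7 {s κ κ' : ℝ} {P : Ω → ℝ} (hP : IsLaw P) (p : V → ℝ) (hPW : APWorld p s κ κ')
    (hw : 1 ≤ w) (Y : Ω → V) (X : Ω → Fin w → V) (W : Ω → β) (B : Ω → γ)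
    (hB : ∃ φ : β → γ, ∀ ω, B ω = φ (W ω)) (ψ : β → V)
    (hψ : ∀ ω, P ω ≠ 0 → Y ω + ∑ i, X ω i = ψ (W ω)) (hX : lw P X = pw p)
    (hind : ∀ x y b, lw P (fun ω => (X ω, Y ω, B ω)) (x, y, b) =
      pw p x * lw P (fun ω => (Y ω, B ω)) (y, b)) (hY : lw P Y = p) {ι M : ℝ} (hM : 1 ≤ M)
    (hι : HH P (fun ω => (Y ω, B ω)) - HH P B - (HH P (fun ω => (Y ω, W ω)) - HH P W) ≤ ι)
    (h128 : 128 * (w : ℝ) ^ 2 * Real.exp (M * (ι + 1)) * (Real.log s / Real.log 2) *
      (6 * Real.log s) ≤ s ^ κ) :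
    HH P (fun ω => (Y ω, W ω)) - HH P W ≤
        Real.log 2 + (8 / M + 2 * s ^ (-κ')) * Real.log s ∧
      pr P (fun ω => lw P (fun ω => (Y ω, W ω)) (Y ω, W ω) < 1 / 2 * lw P W (W ω)) ≤
        2 * (8 / M + 2 * s ^ (-κ')) := by
  have h := dl_agree hP p hPW hw Y X W B hB ψ hψ hX hind hY hM hι h128
  exact ⟨dl_fano hP Y W p hY hPW.card h, dl_det hP Y W h⟩

end DL

end Pool.Agent.XA
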