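import Pool.Agent.Lib_helper94.XO.P1.I8e
import Pool.Agent.Lib_helper58.XA.DL

/-!
# Part I, I.8 for finite abelian groups
-/

set_option autoImplicit false

namespace Pool.Agent.XA

open Finset Filter Pool.Agent.XO Pool.Agent.Lib_helper94.XO.P1

section group

variable {V : Type} [AddCommGroup V] [Fintype V] [DecidableEq V]

/-- the inequality of I.8 -/
theorem p1_ineq {p : V → ℝ} {s κ κ' : ℝ} (hW : APWorld p s κ κ') {M : ℝ} (hM : 1 ≤ M)
    (K l : ℕ) (hK : 1 ≤ K) (hl : 1 ≤ l)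
    (h128 : 128 * (K : ℝ) ^ 2 * Real.exp (M * ((AA p (l + K) - AA p (K + 1) +
      K * (AA p (l + K + K) - AA p l)) + 1)) * Real.log s / Real.log 2 * (6 * Real.log s) ≤
        s ^ κ) :
    AA p K + AA p (K + 1) - AA p (l + K) - K * (AA p (l + K + K) - AA p l) ≤
      Real.log 2 + (8 / M + 2 * s ^ (-κ')) * Real.log s := by
  obtain ⟨k, rfl⟩ := Nat.exists_eq_add_of_le' hK
  have hp := hW.law
  have hP := p1_P_law hp k l
  obtain ⟨h1, h2⟩ := p1_entropies hp k l
  have h3 := p1_second hp l (k + 1) hl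
  have e1 : k + 1 + l = l + (k + 1) := by omega
  rw [e1] at h2
  have hk := cp_law hp k
  have hw := pw_law hp (k + 1)
  have hl' := cp_law hp l
  have hwl := p1_law hw hl'
  have hkwl := p1_law hk hwl
  -- laws of pairs and triples
  have l2 : ∀ y b, lw (p1_P p k l) (fun ω => (ω.1, ω.1 + ω.2.1)) (y, b) = p y * cp p k (b - y) := by
    intro y b
    rw [p1_lw_iff (p1_P p k l) (fun ω => (ω.1, ω.1 + ω.2.1)) (fun ω => (ω.1, ω.2.1)) (y, b)
      (y, b - y) (fun ω => by
        simp only [Prod.mk.injEq]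
        constructor
        · rintro ⟨h4, h5⟩
          exact ⟨h4, by rw [← h5, h4]; abel⟩
        · rintro ⟨h4, h5⟩
          exact ⟨h4, by rw [h5, h4]; abel⟩)]
    have := p1_pair p (p1_pq (cp p k) (p1_pq (fun c : Fin (k + 1) → V => pw p c) (cp p l)))
      (fun x => x) (fun y : V × (Fin (k + 1) → V) × V => y.1) y (b - y)
    unfold p1_P
    rw [this, p1_id, p1_fst (cp p k) hwl (fun x => x), p1_id]
  have l3 : ∀ x y b, lw (p1_P p k l) (fun ω => (ω.2.2.1, ω.1, ω.1 + ω.2.1)) (x, y, b) =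
      pw p x * (p y * cp p k (b - y)) := by
    intro x y b
    rw [p1_lw_iff (p1_P p k l) (fun ω => (ω.2.2.1, ω.1, ω.1 + ω.2.1))
      (fun ω => (ω.1, (ω.2.1, ω.2.2.1))) (x, y, b) (y, (b - y, x)) (fun ω => by
        simp only [Prod.mk.injEq]
        constructor
        · rintro ⟨h6, h4, h5⟩
          exact ⟨h4, by rw [← h5, h4]; abel, h6⟩
        · rintro ⟨h4, h5, h6⟩
          exact ⟨h6, h4, by rw [h5, h4]; abel⟩)]
    have t1 := p1_pair p (p1_pq (cp p k) (p1_pq (fun c : Fin (k + 1) → V => pw p c) (cp p l)))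
      (fun x => x) (fun y : V × (Fin (k + 1) → V) × V => (y.1, y.2.1)) y (b - y, x)
    have t2 := p1_pair (cp p k) (p1_pq (fun c : Fin (k + 1) → V => pw p c) (cp p l))
      (fun x => x) (fun y : (Fin (k + 1) → V) × V => y.1) (b - y) x
    unfold p1_P
    rw [t1, t2, p1_id, p1_id, p1_fst (fun c : Fin (k + 1) → V => pw p c) hl' (fun x => x), p1_id]
    ring
  have key := dl7 hP p hW (w := k + 1) (by omega) (fun ω => ω.1) (fun ω => ω.2.2.1)
    (fun ω => (ω.1 + ω.2.1, (∑ i, ω.2.2.1 i) + ω.2.2.2, ω.1 + ∑ i, ω.2.2.1 i))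
    (fun ω => ω.1 + ω.2.1) ⟨fun t => t.1, fun ω => rfl⟩ (fun t => t.2.2) (fun ω _ => rfl)
    (by
      unfold p1_P
      have t1 := p1_snd (P := p) (p1_pq (cp p k) (p1_pq (fun c : Fin (k + 1) → V => pw p c) (cp p l)))
        hp (fun y : V × (Fin (k + 1) → V) × V => y.2.1)
      have t2 := p1_snd (P := cp p k) (p1_pq (fun c : Fin (k + 1) → V => pw p c) (cp p l)) hk
        (fun y : (Fin (k + 1) → V) × V => y.1)
      rw [t1, t2, p1_fst (fun c : Fin (k + 1) → V => pw p c) hl' (fun x => x), p1_id])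
    (fun x y b => by rw [l3, l2]) (p1_Y hp k l) hM
    (ι := AA p (l + (k + 1)) - AA p (k + 1 + 1) +
      ((k + 1 : ℕ) : ℝ) * (AA p (l + (k + 1) + (k + 1)) - AA p l))
    (by
      have : AA p (k + 1 + 1) = AA p (k + 2) := rfl
      rw [h1, this]
      linarith)
    (by
      refine le_trans (le_of_eq ?_) h128
      ring)
  have e2 : AA p (k + 1 + 1) = AA p (k + 2) := rfl
  rw [e2]
  linarith [key.1]

end group

/-- eventual inequality -/
theorem six_log (κ : ℝ) (hκ : 0 < κ) : ∀ᶠ s : ℝ in atTop, 6 * Real.log s ≤ s ^ (κ / 2) := by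
  have := (isLittleO_log_rpow_atTop (show 0 < κ / 2 by positivity)).bound
    (show (0 : ℝ) < 1 / 6 by norm_num)
  filter_upwards [this, eventually_gt_atTop 1] with s hs hs1
  rw [Real.norm_eq_abs, Real.norm_eq_abs,
    abs_of_nonneg (Real.log_nonneg hs1.le), abs_of_nonneg (by positivity)] at hs
  linarith

/-- **I.8 (E1)** -/
theorem e_one (κ κ' ε : ℝ) (hκ : 0 < κ) (hκ' : 0 < κ') (hε : 0 < ε) :
    ∃ t0 : ℝ, 0 < t0 ∧ ∀ᶠ s : ℝ in atTop, ∀ (V : Type) [AddCommGroup V]
      [Fintype V] [DecidableEq V] (p : V → ℝ), APWorld p s κ κ' →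
      ∀ n : ℕ, 1 ≤ n → (n : ℝ) ≤ s ^ t0 → AA p n ≤ ε * Real.log s := by
  obtain ⟨t0, ht0, M, hM, h⟩ := p1_scales (κ / 2) κ' ε (by positivity) hκ' hε
  refine ⟨t0, ht0, ?_⟩
  filter_upwards [h, six_log κ hκ, eventually_gt_atTop 1] with s hs h6 h1 V _ _ _ p hW n hn1 hn
  have hp := hW.law
  exact hs (AA p) (fun k l h1 h2 => p1_mono' hp h1 h2) (fun k hk => p1_aa_nonneg hp hk)
    (fun k hk => p1_aa_le hp hW.card hk)
    (fun K l hK hl h128 => p1_ineq hW hM K l hK hl (by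
      have hs0 : 0 < s := by linarith
      have e2 : s ^ κ = s ^ (κ / 2) * s ^ (κ / 2) := by
        rw [← Real.rpow_add hs0]
        congr 1
        ring
      rw [e2]
      exact mul_le_mul h128 h6 (mul_nonneg (by norm_num) (Real.log_nonneg h1.le))
        (Real.rpow_nonneg hs0.le _))) n hn1 hn

end Pool.Agent.XA
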