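import Pool.Agent.Lib_helper94.XO.P1.TOb
import Pool.Agent.Lib_helper58.XA.E1

/-!
# Part I, I.9 for finite abelian groups: tightness
-/

set_option autoImplicit false

namespace Pool.Agent.XA

open Finset Filter Pool.Agent.XO Pool.Agent.Lib_helper94.XO.P1

section Model

variable {V : Type} [AddCommGroup V] [Fintype V] [DecidableEq V]

/-- **the finite form of I.9** -/
theorem tight_fin {p : V → ℝ} {s κ κ' : ℝ} (hPW : APWorld p s κ κ') {m : ℕ}
    (hm : 1 ≤ m) (u v : ℕ) {M ι K x δ' : ℝ} (hM : 1 ≤ M) (hι : AA p (u + 1) ≤ ι)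
    (h128 : 128 * (m : ℝ) ^ 2 * Real.exp (M * (ι + 1)) * (Real.log s / Real.log 2) *
      (6 * Real.log s) ≤ s ^ κ)
    (hK : ent (cp p (u + v)) - ent (cp p (m + 1 + (u + v))) - ent (cp p u) - ent (cp p v) +
      ent (cp p (u + 1)) + ent (cp p (m + v)) ≤ K) (hx : 0 < x) (hδ : 0 < δ') :
    pr (fun c : Fin (m + 1) → V => pw p c) (fun c => mu p (m + 1) (∑ i, c i) (c 0) <
      Real.exp (-x) * (δ' / 2)) ≤ (K + 1) / x + δ' + 2 * (8 / M + 2 * s ^ (-κ')) := by
  classical
  have hp := hPW.law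
  have hP := to_law hp m u v
  have hdl := (dl7 hP p hPW hm (fun ω => ω.1.1) (fun ω => ω.1.2)
    (fun ω => ((ω.1.1 + ω.2.1, ∑ i, ω.1.2 i + ω.2.2), ω.1.1 + ∑ i, ω.1.2 i))
    (fun ω => ω.1.1 + ω.2.1) ⟨fun x => x.1.1, fun _ => rfl⟩ (fun x => x.2)
    (fun _ _ => rfl) (to_X hp m u v) (to_ind hp m u v) (to_Y hp m u v) hM
    (by
      rw [to_HYB hp]
      have := HH_le_pair hP (fun ω => ω.1.1)
        (fun ω => ((ω.1.1 + ω.2.1, ∑ i, ω.1.2 i + ω.2.2), ω.1.1 + ∑ i, ω.1.2 i))
      linarith) h128).2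
  have h1 := tight_abs hP (fun ω => ω.1.1) (fun ω => ω.1.1 + ∑ i, ω.1.2 i)
    (fun ω => (ω.1.1 + ω.2.1, ∑ i, ω.1.2 i + ω.2.2))
    (fun ω => (ω.1.1 + ω.2.1) + (∑ i, ω.1.2 i + ω.2.2)) (fun x => x.1 + x.2) (fun _ => rfl)
    (K := K) hx hδ
    (by
      rw [to_HYgZ hp, to_HZ hp, to_HYgW hp, to_HW hp]
      linarith) hdl
  rw [to_pr hp m u v (fun g c => mu p (m + 1) g c < Real.exp (-x) * (δ' / 2))]
  refine le_trans ?_ h1
  apply pr_mono hP.nonneg
  intro ω hω hmu
  show lw (to_P p m u v) (fun ω => ((ω.1.1, ω.1.1 + ∑ i, ω.1.2 i),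
      (ω.1.1 + ω.2.1) + (∑ i, ω.1.2 i + ω.2.2))) ((ω.1.1, ω.1.1 + ∑ i, ω.1.2 i),
      (ω.1.1 + ω.2.1) + (∑ i, ω.1.2 i + ω.2.2)) < Real.exp (-x) * (δ' / 2) *
      lw (to_P p m u v) (fun ω => (ω.1.1 + ∑ i, ω.1.2 i,
      (ω.1.1 + ω.2.1) + (∑ i, ω.1.2 i + ω.2.2))) (ω.1.1 + ∑ i, ω.1.2 i,
      (ω.1.1 + ω.2.1) + (∑ i, ω.1.2 i + ω.2.2))
  have hpos1 : 0 < lw (to_P p m u v) (fun ω => (ω.1.1 + ∑ i, ω.1.2 i,
      (ω.1.1 + ω.2.1) + (∑ i, ω.1.2 i + ω.2.2))) (ω.1.1 + ∑ i, ω.1.2 i,
      (ω.1.1 + ω.2.1) + (∑ i, ω.1.2 i + ω.2.2)) := lt_of_lt_of_le hω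
    (le_lw hP.nonneg (fun ω => (ω.1.1 + ∑ i, ω.1.2 i,
      (ω.1.1 + ω.2.1) + (∑ i, ω.1.2 i + ω.2.2))) ω)
  rw [to_lw_gZ hp] at hpos1
  rw [to_lw_YgZ hp, to_lw_gZ hp]
  set g := ω.1.1 + ∑ i, ω.1.2 i with hg
  set z := (ω.1.1 + ω.2.1) + (∑ i, ω.1.2 i + ω.2.2) with hz
  have hc1 := q_cp_nonneg hp.nonneg (m + 1) g
  have hc2 := q_cp_nonneg hp.nonneg (u + v) (z - g)
  have hg0 : 0 < cp p (m + 1) g := lt_of_le_of_ne hc1 (fun h => by
    rw [← h, zero_mul] at hpos1; exact lt_irrefl _ hpos1)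
  have hz0 : 0 < cp p (u + v) (z - g) := lt_of_le_of_ne hc2 (fun h => by
    rw [← h, mul_zero] at hpos1; exact lt_irrefl _ hpos1)
  unfold mu at hmu
  rw [Nat.add_sub_cancel, div_lt_iff₀ hg0] at hmu
  calc p ω.1.1 * cp p m (g - ω.1.1) * cp p (u + v) (z - g)
      < Real.exp (-x) * (δ' / 2) * cp p (m + 1) g * cp p (u + v) (z - g) :=
        mul_lt_mul_of_pos_right hmu hz0
    _ = _ := by ring

end Model

/-- **I.9 (E2'), tightness** -/
theorem tight_one_pr (κ κ' δ : ℝ) (hκ : 0 < κ) (hκ' : 0 < κ') (hδ : 0 < δ) :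
    ∃ C : ℝ, 0 < C ∧ ∀ m : ℕ, ∀ᶠ s : ℝ in atTop,
      ∀ (V : Type) [AddCommGroup V] [Fintype V] [DecidableEq V] (p : V → ℝ),
      APWorld p s κ κ' →
      pr (fun c : Fin (m + 1) → V => pw p c) (fun c => mu p (m + 1) (∑ i, c i) (c 0) <
        Real.exp (-(C * (1 + Real.log (m + 1))))) ≤ δ := by
  set M : ℝ := 128 / δ + 1 with hMdef
  have hM : 1 ≤ M := by
    have : 0 < 128 / δ := by positivity
    linarith
  have hM0 : 0 < M := by linarith
  set e0 : ℝ := κ / 2 / (4 * M) with he0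
  have he00 : 0 < e0 := by positivity
  obtain ⟨t0, ht0, hev⟩ := e_one κ κ' e0 hκ hκ' he00
  have hQ : 0 < e0 / t0 := by positivity
  refine ⟨4 * (6 * (e0 / t0) + 1) / δ + 8 / δ, by positivity, ?_⟩
  intro m
  set C := 4 * (6 * (e0 / t0) + 1) / δ + 8 / δ with hC
  have hC0 : 0 < C := by positivity
  rcases Nat.eq_zero_or_pos m with hm0 | hm1
  · -- one element
    subst hm0
    filter_upwards with s V _ _ _ p hPW
    have h0 : pr (fun c : Fin (0 + 1) → V => pw p c) (fun c => mu p (0 + 1) (∑ i, c i) (c 0) <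
        Real.exp (-(C * (1 + Real.log ((0 : ℕ) + 1))))) = 0 := by
      unfold pr
      apply Finset.sum_eq_zero
      intro c _
      split_ifs with h
      · by_contra hne
        have hc : p (c 0) ≠ 0 := by
          intro hz
          apply hne
          unfold pw
          exact Finset.prod_eq_zero (Finset.mem_univ 0) hz
        have hmu : mu p (0 + 1) (∑ i, c i) (c 0) = 1 := by
          have e1 : ∑ i, c i = c 0 := by simp
          rw [e1]
          exact to_mu_one p hc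
        change mu p (0 + 1) (∑ i, c i) (c 0) < _ at h
        rw [hmu] at h
        have : Real.exp (-(C * (1 + Real.log ((0 : ℕ) + 1)))) ≤ 1 := by
          rw [Real.exp_le_one_iff]
          simp
          exact hC0.le
        linarith
      · rfl
    rw [h0]
    exact hδ.le
  · filter_upwards [hev, to_event (κ / 2) κ' δ M t0 (by positivity) hκ' hδ hM ht0 m,
      six_log κ hκ] with s hs1 hs2 hs6 V _ _ _ p hPW
    obtain ⟨s1, s2, s3', s4⟩ := hs2
    have hs0 : 0 < s := by linarith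
    have s3 : 128 * (m : ℝ) ^ 2 * Real.exp (M * (e0 * Real.log s + 1)) *
        (Real.log s / Real.log 2) * (6 * Real.log s) ≤ s ^ κ := by
      have e2 : s ^ κ = s ^ (κ / 2) * s ^ (κ / 2) := by
        rw [← Real.rpow_add hs0]
        congr 1
        ring
      rw [e2]
      exact mul_le_mul s3' hs6 (mul_nonneg (by norm_num) (Real.log_nonneg s1.le))
        (Real.rpow_nonneg hs0.le _)
    have hL : 0 < Real.log s := Real.log_pos s1
    have hp := hPW.law
    have hst : s ^ t0 = Real.exp (t0 * Real.log s) := by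
      rw [Real.rpow_def_of_pos hs0, mul_comm]
    obtain ⟨N, j, hN, hj, hj2, hNs, hD, hjD⟩ := to_scale (fun n => AA p n)
      (fun a b ha hab => AA_mono hp ha hab) (fun a ha => AA_nonneg hp ha) (m + 1) (by omega)
      (Real.log s) t0 e0 hL ht0 he00.le s2 (fun n hn hns => hs1 V p hPW n hn (by
        rw [hst]; exact hns))
    set K : ℝ := 6 * (e0 / t0) * Real.log (2 * ((m + 1 : ℕ) : ℝ)) with hK
    have hKN := to_KN hp hm1 hN hj hj2 hD hjD
    have hlog0 : 0 ≤ Real.log (2 * ((m + 1 : ℕ) : ℝ)) := by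
      apply Real.log_nonneg
      have : (1 : ℝ) ≤ ((m + 1 : ℕ) : ℝ) := by exact_mod_cast (by omega : 1 ≤ m + 1)
      linarith
    have hK0 : 0 ≤ K := by positivity
    have hx : 0 < 4 * (K + 1) / δ := by positivity
    have hAN : AA p (N - 1 + 1) ≤ e0 * Real.log s := by
      rw [show N - 1 + 1 = N by omega]
      apply hs1 V p hPW N (by omega)
      rw [hst]
      refine le_trans ?_ hNs
      have : N ≤ 2 * (m + 1) * N := by
        calc N = 1 * N := (one_mul N).symm
          _ ≤ 2 * (m + 1) * N := Nat.mul_le_mul_right N (by omega)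
      exact_mod_cast this
    have hfin := tight_fin hPW hm1 (N - 1) (j * N - m) hM hAN s3
      (K := K) (by
        refine hKN.trans (le_of_eq ?_)
        rw [hK]; ring) hx (show 0 < δ / 4 by positivity)
    have hmono : pr (fun c : Fin (m + 1) → V => pw p c)
        (fun c => mu p (m + 1) (∑ i, c i) (c 0) < Real.exp (-(C * (1 + Real.log (m + 1))))) ≤
        pr (fun c : Fin (m + 1) → V => pw p c)
        (fun c => mu p (m + 1) (∑ i, c i) (c 0) <
          Real.exp (-(4 * (K + 1) / δ)) * (δ / 4 / 2)) := by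
      apply pr_mono (fun c => kl_pw_nonneg p hp.nonneg c)
      intro c _ hc
      refine lt_of_lt_of_le hc ?_
      have hl : 0 ≤ Real.log ((m : ℝ) + 1) := by
        apply Real.log_nonneg
        have : (0 : ℝ) ≤ m := Nat.cast_nonneg m
        linarith
      set l := 1 + Real.log ((m : ℝ) + 1) with hldef
      have hl1 : 1 ≤ l := by linarith
      have hlog2m : Real.log (2 * ((m + 1 : ℕ) : ℝ)) ≤ l := by
        have : (0 : ℝ) < (m : ℝ) + 1 := by positivity
        rw [Nat.cast_add_one, Real.log_mul (by norm_num) this.ne']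
        have h2 : Real.log 2 ≤ 1 := by
          have := Real.log_two_lt_d9
          linarith
        linarith
      have hKl : K + 1 ≤ (6 * (e0 / t0) + 1) * l := by
        rw [hK]
        have := mul_le_mul_of_nonneg_left hlog2m (show 0 ≤ 6 * (e0 / t0) by positivity)
        linarith
      have h8 : Real.exp (-(8 / δ * l)) ≤ δ / 4 / 2 := by
        have e1 : Real.exp (-(8 / δ * l)) ≤ Real.exp (-(8 / δ)) := by
          apply Real.exp_le_exp.2
          have : 0 < 8 / δ := by positivity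
          nlinarith
        have e2 : 8 / δ ≤ Real.exp (8 / δ) := by
          have := Real.add_one_le_exp (8 / δ)
          linarith
        have e3 : Real.exp (-(8 / δ)) ≤ δ / 8 := by
          rw [Real.exp_neg, inv_le_comm₀ (Real.exp_pos _) (by positivity), inv_div]
          exact e2
        linarith
      have h9 : Real.exp (-(4 * (6 * (e0 / t0) + 1) / δ * l)) ≤
          Real.exp (-(4 * (K + 1) / δ)) := by
        apply Real.exp_le_exp.2
        rw [neg_le_neg_iff]
        calc 4 * (K + 1) / δ = 4 / δ * (K + 1) := by ring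
          _ ≤ 4 / δ * ((6 * (e0 / t0) + 1) * l) :=
              mul_le_mul_of_nonneg_left hKl (by positivity)
          _ = _ := by ring
      calc Real.exp (-(C * l)) = Real.exp (-(4 * (6 * (e0 / t0) + 1) / δ * l)) *
            Real.exp (-(8 / δ * l)) := by
            rw [← Real.exp_add, hC]
            congr 1
            ring
        _ ≤ _ := mul_le_mul h9 h8 (Real.exp_pos _).le (Real.exp_pos _).le
    refine hmono.trans (hfin.trans ?_)
    have e1 : (K + 1) / (4 * (K + 1) / δ) = δ / 4 := by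
      have : K + 1 ≠ 0 := by linarith
      field_simp
    have e2 : 8 / M ≤ δ / 16 := by
      rw [div_le_iff₀ hM0, hMdef]
      have : δ / 16 * (128 / δ + 1) = 8 + δ / 16 := by
        field_simp
        ring
      rw [this]
      linarith
    rw [e1]
    linarith

end Pool.Agent.XA
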