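import Pool.Agent.Lib_helper94.XO.P1.I10
import Pool.Agent.Lib_helper58.XA.TO

/-!
# Part I, I.10 for finite abelian groups: tightness for tuples
-/

set_option autoImplicit false

namespace Pool.Agent.XA

open Finset Filter Pool.Agent.XO Pool.Agent.Lib_helper94.XO.P1

/-- PART I, tightness for tuples inside `n` elements -/
theorem tight_in (κ κ' δ : ℝ) (hκ : 0 < κ) (hκ' : 0 < κ') (hδ : 0 < δ) (m : ℕ) :
    ∃ C : ℝ, 0 < C ∧ ∀ n : ℕ, 1 ≤ n → ∀ hmn : m ≤ n, ∀ᶠ s : ℝ in atTop,
      ∀ (V : Type) [AddCommGroup V] [Fintype V] [DecidableEq V] (p : V → ℝ),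
      APWorld p s κ κ' →
      pr (fun c : Fin n → V => pw p c) (fun c => mum p n (∑ i, c i)
        (fun i : Fin m => c (Fin.castLE hmn i)) < Real.exp (-(C * (1 + Real.log n)))) ≤ δ := by
  have hη : 0 < δ / (m + 1) := by positivity
  obtain ⟨C, hC, htight⟩ := tight_one_pr κ κ' (δ / (m + 1)) hκ hκ' hη
  refine ⟨(m + 1) * C, by positivity, fun n hn hmn => ?_⟩
  have hall : ∀ᶠ s : ℝ in atTop, ∀ k ∈ Finset.range n, ∀ (V : Type) [AddCommGroup V]
      [Fintype V] [DecidableEq V] (p : V → ℝ), APWorld p s κ κ' →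
      pr (fun c : Fin (k + 1) → V => pw p c) (fun c => mu p (k + 1) (∑ i, c i) (c 0) <
        Real.exp (-(C * (1 + Real.log (k + 1))))) ≤ δ / (m + 1) := by
    rw [Filter.eventually_all_finset]
    exact fun k _ => htight k
  filter_upwards [hall] with s hs V _ _ _ p hp
  have hchain := i10_chain hp.law C (δ / (m + 1)) m n hmn (fun k hk _ => by
    have := hs k (Finset.mem_range.2 (by omega)) V p hp
    unfold i10t
    push_cast
    exact this)
  have hlog : 0 ≤ 1 + Real.log n := by
    have : 0 ≤ Real.log n := Real.log_nonneg (by exact_mod_cast hn)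
    linarith
  have h1 : Real.exp (-((m + 1) * C * (1 + Real.log n))) ≤
      ∏ i ∈ Finset.range m, i10t C (n - i) := by
    refine le_trans ?_ (i10_prod_le hC hn)
    refine Real.exp_le_exp.2 (neg_le_neg ?_)
    have : (m : ℝ) * C ≤ (m + 1) * C := by nlinarith
    exact mul_le_mul_of_nonneg_right this hlog
  refine (pr_mono (fun c => pw_nonneg hp.law c) (fun c _ h => lt_of_lt_of_le h h1)).trans ?_
  refine hchain.trans ?_
  rw [mul_div_assoc', div_le_iff₀ (by positivity)]
  nlinarith

/-- PART I, tightness for tuples given their own sum -/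
theorem tight_own (κ κ' δ : ℝ) (hκ : 0 < κ) (hκ' : 0 < κ') (hδ : 0 < δ) (m : ℕ) :
    ∃ v : ℝ, 0 < v ∧ ∀ᶠ s : ℝ in atTop, ∀ (V : Type) [AddCommGroup V]
      [Fintype V] [DecidableEq V] (p : V → ℝ), APWorld p s κ κ' →
      pr (fun c : Fin m → V => pw p c) (fun c => pw p c < v * cp p m (∑ i, c i)) ≤ δ := by
  rcases Nat.eq_zero_or_pos m with rfl | hm
  · refine ⟨1, one_pos, Filter.Eventually.of_forall fun s V _ _ _ p hp => ?_⟩
    have h0 : pr (fun c : Fin 0 → V => pw p c) (fun c => pw p c < 1 * cp p 0 (∑ i, c i)) ≤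
        pr (fun c : Fin 0 → V => pw p c) (fun _ => False) := by
      refine pr_mono (fun c => pw_nonneg hp.law c) (fun c _ h => ?_)
      rw [cp_zero] at h
      simp [pw] at h
    refine h0.trans ?_
    simp [pr, hδ.le]
  · obtain ⟨C, hC, htight⟩ := tight_in κ κ' δ hκ hκ' hδ m
    refine ⟨Real.exp (-(C * (1 + Real.log m))), Real.exp_pos _, ?_⟩
    filter_upwards [htight m hm le_rfl] with s hs V _ _ _ p hp
    refine (pr_mono (fun c => pw_nonneg hp.law c) (fun c hc h => ?_)).trans (hs V p hp)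
    have h1 : 0 < cp p m (∑ i, c i) := lt_of_lt_of_le hc (pw_le_cp hp.law c)
    have h2 : mum p m (∑ i, c i) (fun i : Fin m => c (Fin.castLE le_rfl i)) =
        pw p c / cp p m (∑ i, c i) := by
      unfold mum
      have e1 : (fun i : Fin m => c (Fin.castLE le_rfl i)) = c := by
        funext i
        rfl
      rw [e1, sub_self, Nat.sub_self, cp_zero, if_pos rfl, mul_one]
    rw [h2, div_lt_iff₀ h1]
    exact h

end Pool.Agent.XA
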