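import Mathlib
import Pool.Agent.Lib_helper38.XA.Defs
import Pool.Agent.Lib_helper98.XA.A1
import Pool.Agent.Lib_helper58.XA.A3
import Pool.Agent.Lib_helper82.XA.A10
import Pool.Agent.Lib_helper76.XA.A11
import Pool.Agent.Lib_helper10.XA.C1
import Pool.Agent.Lib_helper58.XA.H2

/-! XA: the main theorem and the final theorem -/

set_option autoImplicit false

namespace Pool.Agent.XA

open Finset Filter Pool.Agent.XO Pool.Agent.Lib_helper10.LogRank

/-- PART II -/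
theorem part_two_a (κ κ' κ2 : ℝ) (hκ : 0 < κ) (hκ' : 0 < κ') (hκ2 : 0 < κ2) :
    ∃ Λ k : ℕ, ∀ M G : ℕ, ∀ᶠ s : ℝ in atTop, ∀ (V : Type) [AddCommGroup V]
      [Fintype V] [DecidableEq V] (p : V → ℝ) (e : V → ℂ), AWorld p e s κ κ' κ2 →
      ∃ (col : V → Fin k) (σ : V → V → V × V) (K : V → Finset ℕ) (y : Fin M → V),
        CACT Λ G col σ K y := by
  obtain ⟨Λ, hΛ⟩ := aselect κ κ' κ2 hκ hκ' hκ2
  obtain ⟨k, arc, harc⟩ := arc_exists
  refine ⟨Λ, k, fun M G => ?_⟩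
  filter_upwards [hΛ M G] with s hs V _ _ _ p e hW
  obtain ⟨σ, hσ⟩ := agate_exists hW
  obtain ⟨n, v, K, Hb, y, h⟩ := hs V p e hW σ hσ
  obtain ⟨K', y', h'⟩ := asel_act hW.unit harc hσ h
  exact ⟨_, σ, K', y', h'⟩

/-- MAIN THEOREM -/
theorem no_aworld : NoAWorld := by
  intro κ κ' κ2 hκ hκ' hκ2
  obtain ⟨Λ, k, hΛ⟩ := part_two_a κ κ' κ2 hκ hκ' hκ2
  obtain ⟨M, G, hMG⟩ := cact_false_pr Λ k
  filter_upwards [hΛ M G] with s hs V _ _ _ p e hW
  obtain ⟨col, σ, K, y, h⟩ := hs V p e hW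
  exact hMG V col σ K y h

/-- FINAL THEOREM: matrices with an abelian group of automorphisms -/
theorem abelian_final {ε : ℝ} (hε : 0 < ε) : ∃ C : ℝ, ∀ (A : Type) [CommGroup A]
    [Finite A] (X Y : Type) [Fintype X] [Fintype Y] [MulAction A X] [MulAction A Y]
    (F : X → Y → Bool) (u : X → Bool) (v : Y → Bool),
    (∀ (a : A) x y, F (a • x) (a • y) = F x y) →
    ∃ π : Protocol X Y, (∀ x y, π.eval x y = (F x y ^^ u x ^^ v y)) ∧
      (π.cost : ℝ) ≤ Nat.clog 2 (Nat.card (MulAction.orbitRel.Quotient A X)) +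
        C * (realRank fun (x : X) (y : Y) => (F x y ^^ u x ^^ v y) : ℝ) ^ ε :=
  afinal no_aworld hε

end Pool.Agent.XA
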