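import Mathlib

/-! XA, block G3: a lower bound for the totient -/

set_option autoImplicit false

namespace Pool.Agent.XA

open Finset Filter

theorem g3_pow {p k : ℕ} (hp : p.Prime) (hk : 0 < k) (h2 : p ≠ 2) :
    p ^ k ≤ (p ^ k).totient ^ 2 := by
  rw [Nat.totient_prime_pow hp hk]
  have h3 : 3 ≤ p := by
    have := hp.two_le
    omega
  obtain ⟨j, rfl⟩ : ∃ j, k = j + 1 := ⟨k - 1, by omega⟩
  rw [Nat.add_sub_cancel]
  obtain ⟨q, rfl⟩ : ∃ q, p = q + 3 := ⟨p - 3, by omega⟩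
  have e1 : q + 3 - 1 = q + 2 := by omega
  rw [e1]
  have h4 : 1 ≤ (q + 3) ^ j := Nat.one_le_pow _ _ (by omega)
  have h5 : q + 3 ≤ (q + 2) ^ 2 := by nlinarith
  calc (q + 3) ^ (j + 1) = (q + 3) ^ j * (q + 3) := pow_succ _ _
    _ ≤ (q + 3) ^ j * (q + 2) ^ 2 := Nat.mul_le_mul_left _ h5
    _ ≤ ((q + 3) ^ j * (q + 3) ^ j) * (q + 2) ^ 2 :=
        Nat.mul_le_mul_right _ (Nat.le_mul_of_pos_left _ h4)
    _ = ((q + 3) ^ j * (q + 2)) ^ 2 := by ring

theorem g3_two (k : ℕ) : 2 ^ k ≤ 2 * (2 ^ k).totient ^ 2 := by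
  rcases Nat.eq_zero_or_pos k with rfl | hk
  · simp
  · rw [Nat.totient_prime_pow Nat.prime_two hk]
    obtain ⟨j, rfl⟩ : ∃ j, k = j + 1 := ⟨k - 1, by omega⟩
    rw [Nat.add_sub_cancel]
    have h4 : 1 ≤ 2 ^ j := Nat.one_le_two_pow
    calc 2 ^ (j + 1) = 2 * 2 ^ j := by ring
      _ ≤ 2 * (2 ^ j * 2 ^ j) := Nat.mul_le_mul_left _ (Nat.le_mul_of_pos_left _ h4)
      _ = 2 * (2 ^ j * (2 - 1)) ^ 2 := by ring

/-- odd numbers -/
theorem g3_odd (m : ℕ) : ¬ 2 ∣ m → m ≤ m.totient ^ 2 := by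
  induction m using Nat.recOnPosPrimePosCoprime with
  | prime_pow p n hp hn =>
    intro h
    apply g3_pow hp hn
    rintro rfl
    exact h (dvd_pow_self 2 hn.ne')
  | zero => intro h; exact absurd (dvd_zero 2) h
  | one => intro _; simp
  | coprime a b ha hb hab iha ihb =>
    intro h
    have h1 := iha (fun h2 => h (h2.mul_right b))
    have h2 := ihb (fun h2 => h (h2.mul_left a))
    rw [Nat.totient_mul hab, mul_pow]
    exact Nat.mul_le_mul h1 h2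

theorem le_totient_sq (m : ℕ) : m ≤ 2 * m.totient ^ 2 := by
  rcases Nat.eq_zero_or_pos m with rfl | hm
  · simp
  · obtain ⟨k, n, hn, rfl⟩ := Nat.exists_eq_two_pow_mul_odd hm.ne'
    have hn2 : ¬ 2 ∣ n := by
      rw [← even_iff_two_dvd]
      exact Nat.not_even_iff_odd.2 hn
    have hcop : Nat.Coprime (2 ^ k) n :=
      Nat.Coprime.pow_left k ((Nat.Prime.coprime_iff_not_dvd Nat.prime_two).2 hn2)
    rw [Nat.totient_mul hcop, mul_pow, ← mul_assoc]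
    exact Nat.mul_le_mul (g3_two k) (g3_odd n hn2)

end Pool.Agent.XA
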